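import Pool.Agent.Lib.CHW.Blue

/-! Small closed sets do not separate. -/

open scoped Topology ENNReal
open Set MeasureTheory Metric Filter Module

namespace Pool.Agent.Lib.CHW

namespace CON

theorem dense {F : Type} [NormedAddCommGroup F] [NormedSpace ℂ F] [FiniteDimensional ℂ F]
    {S : Set F} (h : dimH S + 1 < 2 * (finrank ℂ F : ℝ≥0∞)) : Dense Sᶜ := by
  apply dense_compl_of_dimH_lt_finrank
  rw [finrank_real_of_complex]
  push_cast
  exact lt_of_le_of_lt le_self_add h

end CON

theorem bCON (hREM : St_REM) : St_CON := by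
  intro F _ _ _ S hS hd
  have hD : Dense Sᶜ := CON.dense hd
  refine ⟨?_, hD⟩
  intro u v hu hv hc ⟨x, hxS, hxu⟩ ⟨y, hyS, hyv⟩
  by_contra hne
  have hdis : ∀ z, z ∈ Sᶜ → z ∈ u → z ∈ v → False := fun z a b c => hne ⟨z, a, b, c⟩
  obtain ⟨g, hg, hgf⟩ := hREM F S (u.indicator fun _ => (1 : ℂ)) hS hd
    (by
      intro z hz
      rcases hc hz with hzu | hzv
      · have : (u.indicator fun _ => (1 : ℂ)) =ᶠ[𝓝 z] fun _ => 1 := by
          filter_upwards [hu.mem_nhds hzu] with w hw
          exact indicator_of_mem hw _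
        exact ((differentiableAt_const _).congr_of_eventuallyEq this).differentiableWithinAt
      · have : (u.indicator fun _ => (1 : ℂ)) =ᶠ[𝓝 z] fun _ => 0 := by
          filter_upwards [hv.mem_nhds hzv, hS.isOpen_compl.mem_nhds hz] with w hw hw'
          exact indicator_of_notMem (fun h => hdis w hw' h hw) _
        exact ((differentiableAt_const _).congr_of_eventuallyEq this).differentiableWithinAt)
    (by
      intro R
      refine ⟨1, fun z _ _ => ?_⟩
      by_cases h : z ∈ u
      · rw [indicator_of_mem h]; simp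
      · rw [indicator_of_notMem h]; simp)
  have h0 : IsClosed (g ⁻¹' {0}) := isClosed_singleton.preimage hg.continuous
  have h1 : IsClosed (g ⁻¹' {1}) := isClosed_singleton.preimage hg.continuous
  have hcov : (univ : Set F) ⊆ g ⁻¹' {0} ∪ g ⁻¹' {1} := by
    rw [← hD.closure_eq]
    refine closure_minimal ?_ (h0.union h1)
    intro z hz
    by_cases h : z ∈ u
    · right
      show g z = 1
      rw [hgf hz, indicator_of_mem h]
    · left
      show g z = 0
      rw [hgf hz, indicator_of_notMem h]
  obtain ⟨z, -, a, b⟩ := isPreconnected_closed_iff.1 (isPreconnected_univ (α := F)) _ _ h0 h1 hcov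
    ⟨y, trivial, show g y = 0 by
      rw [hgf hyS, indicator_of_notMem fun h => hdis y hyS h hyv]⟩
    ⟨x, trivial, show g x = 1 by rw [hgf hxS, indicator_of_mem hxu]⟩
  have a' : g z = 0 := a
  have b' : g z = 1 := b
  exact zero_ne_one (a'.symm.trans b')

end Pool.Agent.Lib.CHW
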