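import Pool.Agent.Lib.CHW.Blue

/-! Project CHW: the critical values of the map to the cone. -/

open scoped Topology ENNReal
open Set Module Metric Filter

noncomputable section

namespace Pool.Agent.Lib.CHW

section aux

variable {V F : Type} [NormedAddCommGroup V] [NormedSpace ℂ V] [NormedAddCommGroup F]
  [NormedSpace ℂ F]

theorem CRIT.contOn {K : Set V} {g : V → F} (hg : ContinuousOn g K) :
    ContinuousOn (cm g) (univ ×ˢ K) :=
  continuousOn_fst.smul (hg.comp continuousOn_snd fun _ hp => hp.2)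

theorem CRIT.closed_image {K : Set V} {g : V → F} (hK : IsCompact K) (hg : ContinuousOn g K)
    (h0 : ∀ z ∈ K, g z ≠ 0) {Z : Set (ℂ × V)} (hZ : IsClosed Z) (hZK : Z ⊆ univ ×ˢ K) :
    IsClosed (cm g '' Z) := by
  obtain ⟨m, hm, hmK⟩ : ∃ m : ℝ, 0 < m ∧ ∀ z ∈ K, m ≤ ‖g z‖ := by
    rcases K.eq_empty_or_nonempty with h | h
    · exact ⟨1, one_pos, by simp [h]⟩
    · obtain ⟨z, hz, hmin⟩ := hK.exists_isMinOn h hg.norm
      exact ⟨‖g z‖, norm_pos_iff.2 (h0 z hz), fun y hy => hmin hy⟩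
  refine isClosed_of_closure_subset fun b hb => ?_
  have hc : IsCompact (Z ∩ closedBall (0 : ℂ) ((‖b‖ + 1) / m) ×ˢ K) :=
    ((isCompact_closedBall _ _).prod hK).inter_left hZ
  have hi : IsClosed (cm g '' (Z ∩ closedBall (0 : ℂ) ((‖b‖ + 1) / m) ×ˢ K)) :=
    (hc.image_of_continuousOn ((CRIT.contOn hg).mono fun p hp => hZK hp.1)).isClosed
  have h1 : b ∈ closure (ball b 1 ∩ cm g '' Z) :=
    isOpen_ball.inter_closure ⟨mem_ball_self one_pos, hb⟩
  have h2 : ball b 1 ∩ cm g '' Z ⊆ cm g '' (Z ∩ closedBall (0 : ℂ) ((‖b‖ + 1) / m) ×ˢ K) := by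
    rintro _ ⟨hb1, p, hp, rfl⟩
    refine ⟨p, ⟨hp, ?_, (hZK hp).2⟩, rfl⟩
    rw [mem_closedBall, dist_zero_right, le_div_iff₀ hm]
    have h3 : ‖cm g p‖ ≤ ‖b‖ + 1 := by
      have h4 := norm_le_norm_add_norm_sub' (cm g p) b
      have h5 := mem_ball.1 hb1
      rw [dist_eq_norm] at h5
      linarith
    have h6 : ‖cm g p‖ = ‖p.1‖ * ‖g p.2‖ := norm_smul _ _
    have h7 := mul_le_mul_of_nonneg_left (hmK _ (hZK hp).2) (norm_nonneg p.1)
    linarith
  exact image_mono inter_subset_left (hi.closure_subset_iff.2 h2 h1)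

theorem CRIT.surj_iff [FiniteDimensional ℂ F] (L : V →L[ℂ] F) :
    Function.Surjective L ↔ finrank ℂ F ≤ finrank ℂ (LinearMap.range (L : V →ₗ[ℂ] F)) := by
  constructor
  · intro h
    have h1 : LinearMap.range (L : V →ₗ[ℂ] F) = ⊤ := LinearMap.range_eq_top.2 h
    rw [h1, finrank_top]
  · intro h
    have h1 : LinearMap.range (L : V →ₗ[ℂ] F) = ⊤ :=
      Submodule.eq_top_of_finrank_eq (le_antisymm (Submodule.finrank_le _) h)
    exact LinearMap.range_eq_top.1 h1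

theorem CRIT.closed_not_surj [FiniteDimensional ℂ F] :
    IsClosed {L : V →L[ℂ] F | ¬ Function.Surjective L} := by
  have h := isOpen_setOfPred_nat_le_rank (𝕜 := ℂ) (E := V) (F := F) (finrank ℂ F)
  have e : {L : V →L[ℂ] F | ¬ Function.Surjective L} =
      {f : V →L[ℂ] F | ((finrank ℂ F : ℕ) : Cardinal) ≤ (f : V →ₗ[ℂ] F).rank}ᶜ := by
    ext L
    simp only [mem_setOf_eq, mem_compl_iff, CRIT.surj_iff, LinearMap.rank]
    rw [← finrank_eq_rank ℂ (LinearMap.range (L : V →ₗ[ℂ] F)), Nat.cast_le]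
  rw [e]
  exact h.isClosed_compl

end aux

theorem bCRIT (hS : St_SARD) : St_CRIT := by
  intro V F _ _ _ _ _ _ _ A _ O K g hD h0
  have hc : ∀ a, ContinuousOn (g a) (K a) := fun a => (hD.hol a).continuousOn.mono (hD.sub a)
  have h0K : ∀ a, ∀ z ∈ K a, g a z ≠ 0 := fun a z hz => h0 a z (hD.sub a hz)
  have hKc : ∀ a, IsClosed ((univ : Set ℂ) ×ˢ K a) := fun a =>
    isClosed_univ.prod (hD.cpt a).isClosed
  have hOo : ∀ a, IsOpen ((univ : Set ℂ) ×ˢ O a) := fun a => isOpen_univ.prod (hD.opn a)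
  have hd : ∀ a, DifferentiableOn ℂ (cm (g a)) (univ ×ˢ O a) := fun a =>
    differentiableOn_fst.smul ((hD.hol a).comp differentiableOn_snd fun _ hp => hp.2)
  constructor
  · have e : Cone K g = ⋃ a, cm (g a) '' (univ ×ˢ K a) := by
      ext b
      simp only [Cone, mem_setOf_eq, mem_iUnion, mem_image]
      constructor
      · rintro ⟨a, z, hz, t, rfl⟩
        exact ⟨a, (t, z), ⟨mem_univ _, hz⟩, rfl⟩
      · rintro ⟨a, p, hp, rfl⟩
        exact ⟨a, p.2, hp.2, p.1, rfl⟩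
    rw [e]
    exact isClosed_iUnion_of_finite fun a =>
      CRIT.closed_image (hD.cpt a) (hc a) (h0K a) (hKc a) Subset.rfl
  · let Z : A → Set (ℂ × V) := fun a => (univ ×ˢ K a) ∩
      fderiv ℂ (cm (g a)) ⁻¹' {L | ¬ Function.Surjective L}
    have hZ : ∀ a, IsClosed (Z a) := fun a =>
      ((Pool.Agent.Lib.SV.H85.continuousOn_fderiv (hOo a) (hd a)).mono
        (prod_mono Subset.rfl (hD.sub a))).preimage_isClosed_of_isClosed (hKc a)
        CRIT.closed_not_surj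
    obtain ⟨r, hr⟩ : ∃ r, finrank ℂ F = r + 1 :=
      Nat.exists_eq_succ_of_ne_zero (finrank_pos (R := ℂ) (M := F)).ne'
    refine ⟨{0} ∪ ⋃ a, cm (g a) '' Z a, ?_, ?_, Or.inl rfl, fun a z hz t ht => ?_⟩
    · exact isClosed_singleton.union (isClosed_iUnion_of_finite fun a =>
        CRIT.closed_image (hD.cpt a) (hc a) (h0K a) (hZ a) inter_subset_left)
    · have h1 : dimH ({0} ∪ ⋃ a, cm (g a) '' Z a : Set F) ≤ 2 * (r : ℝ≥0∞) := by
        rw [dimH_union, dimH_singleton, dimH_iUnion]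
        refine max_le bot_le (iSup_le fun a => ?_)
        refine le_trans (dimH_mono (image_mono ?_)) (hS (ℂ × V) F _ (cm (g a)) r (hOo a) (hd a))
        rintro p ⟨hp, hp2⟩
        refine ⟨⟨mem_univ _, hD.sub a hp.2⟩, ?_⟩
        have h2 : ¬ Function.Surjective (fderiv ℂ (cm (g a)) p) := hp2
        rw [CRIT.surj_iff, hr] at h2
        exact Nat.lt_succ_iff.1 (not_le.1 h2)
      rw [hr]
      push_cast
      rw [mul_add, mul_one]
      exact add_le_add h1 le_rfl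
    · by_contra hn
      exact ht (Or.inr (mem_iUnion.2 ⟨a, (t, z), ⟨⟨mem_univ _, hz⟩, hn⟩, rfl⟩))

end Pool.Agent.Lib.CHW
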