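import Pool.Agent.Lib.CHW.Blue

/-! Project CHW, block CRK: the image near a point of locally maximal rank. -/

open scoped Topology ENNReal
open Set MeasureTheory Metric Filter Module

noncomputable section

namespace Pool.Agent.Lib.CHW

namespace CRK

variable {V W F : Type} [NormedAddCommGroup V] [NormedSpace ℂ V] [NormedAddCommGroup W]
  [NormedSpace ℂ W] [NormedAddCommGroup F] [NormedSpace ℂ F]

/-- If a composition does not lower the rank, it does not enlarge the kernel. -/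
theorem ker_eq [FiniteDimensional ℂ V] (T : V →ₗ[ℂ] F) (p : F →ₗ[ℂ] W)
    (h : finrank ℂ (LinearMap.range T) ≤ finrank ℂ (LinearMap.range (p.comp T))) {v : V}
    (hv : p (T v) = 0) : T v = 0 := by
  have h1 := LinearMap.finrank_range_add_finrank_ker T
  have h2 := LinearMap.finrank_range_add_finrank_ker (p.comp T)
  have h3 : LinearMap.ker T = LinearMap.ker (p.comp T) :=
    Submodule.eq_of_le_of_finrank_le (LinearMap.ker_le_ker_comp T p) (by omega)
  have h4 : v ∈ LinearMap.ker (p.comp T) := hv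
  rw [← h3] at h4
  exact h4

/-- The rank is lower semicontinuous. -/
theorem rank_le [FiniteDimensional ℂ V] {X : Type} [TopologicalSpace X] {T : X → V →L[ℂ] W}
    {x : X} (hT : ContinuousAt T x) : ∀ᶠ y in 𝓝 x,
      finrank ℂ (LinearMap.range (T x : V →ₗ[ℂ] W)) ≤
        finrank ℂ (LinearMap.range (T y : V →ₗ[ℂ] W)) := by
  have h1 := (isOpen_setOfPred_nat_le_rank (𝕜 := ℂ) (E := V) (F := W)
    (finrank ℂ (LinearMap.range (T x : V →ₗ[ℂ] W)))).mem_nhds (x := T x)
    (le_of_eq (finrank_eq_rank ℂ _))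
  filter_upwards [hT.eventually h1] with y hy
  have h2 : ((finrank ℂ (LinearMap.range (T x : V →ₗ[ℂ] W)) : ℕ) : Cardinal) ≤
      (finrank ℂ (LinearMap.range (T y : V →ₗ[ℂ] W)) : ℕ) :=
    hy.trans (le_of_eq (finrank_eq_rank ℂ _).symm)
  exact_mod_cast h2

end CRK

theorem bCRK (hFACT : St_FACT) : St_CRK := by
  intro V F _ _ _ _ _ _ g z h
  have : CompleteSpace V := FiniteDimensional.complete ℂ V
  have : CompleteSpace F := FiniteDimensional.complete ℂ F
  set R : Submodule ℂ F := LinearMap.range (fderiv ℂ g z : V →ₗ[ℂ] F) with hR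
  obtain ⟨p, hp⟩ := Submodule.ClosedComplemented.of_finiteDimensional (𝕜 := ℂ) R
  have hg : ContDiffAt ℂ 1 g z := by
    simpa using SV.H85.contDiffAt_nat (h.mono fun y hy => hy.1) 1
  have hc : ContinuousAt (fun y => p.comp (fderiv ℂ g y)) z :=
    continuousAt_const.clm_comp (hg.continuousAt_fderiv one_ne_zero)
  have hs : Function.Surjective (p.comp (fderiv ℂ g z)) := by
    rintro ⟨w, v, rfl⟩
    exact ⟨v, hp ⟨_, v, rfl⟩⟩
  have hr : finrank ℂ (LinearMap.range (p.comp (fderiv ℂ g z) : V →ₗ[ℂ] R)) = rk g z := by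
    rw [LinearMap.range_eq_top.2 hs, finrank_top]
    rfl
  have hD : ∀ y, DifferentiableAt ℂ g y →
      HasFDerivAt (fun x => p (g x)) (p.comp (fderiv ℂ g y)) y := fun y hy =>
    p.hasFDerivAt.comp y hy.hasFDerivAt
  obtain ⟨-, lam, h1, h2⟩ := hFACT V R F (fun x => p (g x)) g z (by
    filter_upwards [h, CRK.rank_le hc] with y hy hl
    refine ⟨(hD y hy.1).differentiableAt, hy.1, fun v hv => ?_⟩
    rw [(hD y hy.1).fderiv] at hv
    exact CRK.ker_eq (fderiv ℂ g y : V →ₗ[ℂ] F) (p : F →ₗ[ℂ] R) (hy.2.trans (hr ▸ hl)) hv) (by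
    rw [(hD z h.self_of_nhds.1).fderiv]
    exact hs)
  obtain ⟨ε, hε, hb⟩ := Metric.eventually_nhds_iff_ball.1 h1
  have hl : ContDiffOn ℝ 1 lam (ball (p (g z)) ε) := by
    have := SV.H85.contDiffOn_nat isOpen_ball 1 fun b hb' => (hb b hb').differentiableWithinAt
    simpa using this.restrict_scalars ℝ
  have ht : ∀ᶠ y in 𝓝 z, p (g y) ∈ ball (p (g z)) ε :=
    (hD z h.self_of_nhds.1).continuousAt.eventually (ball_mem_nhds _ hε)
  refine ⟨_, h2.and ht, ?_⟩
  calc dimH (g '' {y | g y = lam (p (g y)) ∧ p (g y) ∈ ball (p (g z)) ε})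
      ≤ dimH (lam '' ball (p (g z)) ε) := dimH_mono (by
        rintro _ ⟨y, hy, rfl⟩
        exact ⟨_, hy.2, hy.1.symm⟩)
    _ ≤ dimH (ball (p (g z)) ε) := hl.dimH_image_le (convex_ball _ _) Subset.rfl
    _ = 2 * (rk g z : ℝ≥0∞) := by
        rw [Real.dimH_of_mem_nhds (ball_mem_nhds _ hε), finrank_real_of_complex]
        push_cast
        rfl

end Pool.Agent.Lib.CHW
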