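import Pool.Agent.Lib.CHW.Blue

/-! Row CUT: cut-off functions for a small compact set. -/

open scoped Topology ENNReal NNReal
open Set MeasureTheory Metric Filter Module

noncomputable section

namespace Pool.Agent.Lib.CHW

namespace CUT

variable {E : Type} [NormedAddCommGroup E] [NormedSpace ℝ E]

theorem prod_bound {ι : Type} (s : Finset ι) (φ : ι → E → ℝ)
    (hd : ∀ i, ContDiff ℝ 2 (φ i)) (h01 : ∀ i x, 0 ≤ φ i x ∧ φ i x ≤ 1) (x : E) :
    ‖fderiv ℝ (fun y => ∏ i ∈ s, φ i y) x‖ ≤ ∑ i ∈ s, ‖fderiv ℝ (φ i) x‖ := by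
  classical
  induction s using Finset.induction_on with
  | empty => simp
  | insert a s ha ih =>
    have e : (fun y => ∏ i ∈ insert a s, φ i y) = fun y => φ a y * ∏ i ∈ s, φ i y := by
      funext y; rw [Finset.prod_insert ha]
    have d1 : DifferentiableAt ℝ (φ a) x := ((hd a).differentiable (by norm_num)) x
    have d2 : DifferentiableAt ℝ (fun y => ∏ i ∈ s, φ i y) x :=
      ((contDiff_prod (fun i _ => hd i)).differentiable (by norm_num)) x
    have p0 : 0 ≤ ∏ i ∈ s, φ i x := Finset.prod_nonneg fun i _ => (h01 i x).1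
    have p1 : ∏ i ∈ s, φ i x ≤ 1 :=
      Finset.prod_le_one (fun i _ => (h01 i x).1) fun i _ => (h01 i x).2
    rw [e, fderiv_fun_mul d1 d2, Finset.sum_insert ha]
    refine (norm_add_le _ _).trans ?_
    rw [norm_smul, norm_smul, Real.norm_of_nonneg (h01 a x).1, Real.norm_of_nonneg p0]
    have a1 := mul_le_mul_of_nonneg_right (h01 a x).2
      (norm_nonneg (fderiv ℝ (fun y => ∏ i ∈ s, φ i y) x))
    have a2 := mul_le_mul_of_nonneg_right p1 (norm_nonneg (fderiv ℝ (φ a) x))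
    linarith

theorem bump [FiniteDimensional ℝ E] : ∃ M : ℝ, 0 ≤ M ∧ ∀ (c : E) (r : ℝ), 0 < r →
    ∃ φ : E → ℝ, ContDiff ℝ 2 φ ∧ (∀ x, 0 ≤ φ x ∧ φ x ≤ 1) ∧ (∀ x ∈ ball c (2 * r), φ x = 0) ∧
      (∀ x, x ∉ ball c (4 * r) → φ x = 1 ∧ fderiv ℝ φ x = 0) ∧
      ∀ x, ‖fderiv ℝ φ x‖ ≤ M / r := by
  let χ : ContDiffBump (0 : E) := ⟨2, 3, by norm_num, by norm_num⟩
  have hχ : ContDiff ℝ 2 χ := χ.contDiff
  have hc : Continuous (fderiv ℝ χ) := hχ.continuous_fderiv (by norm_num)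
  obtain ⟨M, hM⟩ := (χ.hasCompactSupport.fderiv ℝ).exists_bound_of_continuous hc
  refine ⟨M, (norm_nonneg _).trans (hM 0), fun c r hr => ?_⟩
  have hA : ContDiff ℝ 2 fun x : E => r⁻¹ • (x - c) :=
    (contDiff_id.sub contDiff_const).const_smul _
  have nA : ∀ x : E, ‖r⁻¹ • (x - c)‖ = dist x c / r := fun x => by
    rw [norm_smul, Real.norm_of_nonneg (inv_nonneg.2 hr.le), dist_eq_norm, div_eq_inv_mul]
  have out : ∀ x : E, 3 * r < dist x c → 1 - χ (r⁻¹ • (x - c)) = 1 := fun x hx => by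
    have : χ (r⁻¹ • (x - c)) = 0 := by
      apply χ.zero_of_le_dist
      rw [dist_zero_right, nA, le_div_iff₀ hr]
      exact hx.le
    rw [this, sub_zero]
  refine ⟨fun x => 1 - χ (r⁻¹ • (x - c)), contDiff_const.sub (hχ.comp hA), fun x => ?_,
    fun x hx => ?_, fun x hx => ?_, fun x => ?_⟩
  · have h0 : 0 ≤ χ (r⁻¹ • (x - c)) := χ.nonneg
    have h1 : χ (r⁻¹ • (x - c)) ≤ 1 := χ.le_one
    constructor <;> linarith
  · have : χ (r⁻¹ • (x - c)) = 1 := by
      apply χ.one_of_mem_closedBall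
      rw [mem_closedBall, dist_zero_right, nA, div_le_iff₀ hr]
      exact (mem_ball.1 hx).le
    show 1 - χ (r⁻¹ • (x - c)) = 0
    rw [this, sub_self]
  · have h3 : 3 * r < dist x c := by
      have := not_lt.1 (mt mem_ball.2 hx)
      linarith
    refine ⟨out x h3, ?_⟩
    have ev : (fun y : E => 1 - χ (r⁻¹ • (y - c))) =ᶠ[𝓝 x] fun _ => (1 : ℝ) := by
      have o : IsOpen {y : E | 3 * r < dist y c} :=
        isOpen_lt continuous_const (continuous_id.dist continuous_const)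
      filter_upwards [o.mem_nhds h3] with y hy using out y hy
    rw [ev.fderiv_eq]
    simp
  · have h1 : HasFDerivAt (fun y : E => r⁻¹ • (y - c)) (r⁻¹ • ContinuousLinearMap.id ℝ E) x :=
      ((hasFDerivAt_id x).sub_const c).const_smul r⁻¹
    have h2 := ((hχ.differentiable (by norm_num)) (r⁻¹ • (x - c))).hasFDerivAt.comp x h1
    have h3 := (h2.const_sub 1).fderiv
    have h4 : fderiv ℝ (fun y : E => 1 - χ (r⁻¹ • (y - c))) x
        = -((fderiv ℝ χ (r⁻¹ • (x - c))).comp (r⁻¹ • ContinuousLinearMap.id ℝ E)) := h3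
    rw [h4, norm_neg]
    refine (ContinuousLinearMap.opNorm_comp_le _ _).trans ?_
    have h5 : ‖r⁻¹ • ContinuousLinearMap.id ℝ E‖ ≤ r⁻¹ := by
      rw [norm_smul, Real.norm_of_nonneg (inv_nonneg.2 hr.le)]
      exact mul_le_of_le_one_right (inv_nonneg.2 hr.le) ContinuousLinearMap.norm_id_le
    rw [div_eq_mul_inv]
    exact mul_le_mul (hM _) h5 (norm_nonneg _) ((norm_nonneg _).trans (hM 0))

theorem cover [MeasurableSpace E] [BorelSpace E] (K : Set E) (d : ℕ) (hd : 1 ≤ d)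
    (hK : IsCompact K) (h : dimH K < d) (δ : ℝ) (hδ : 0 < δ) :
    ∃ (s : Finset ℕ) (c : ℕ → E) (r : ℕ → ℝ), (∀ n, 0 < r n ∧ r n ≤ 1) ∧
      K ⊆ ⋃ n ∈ s, ball (c n) (2 * r n) ∧ ∑ n ∈ s, r n ^ d ≤ δ := by
  have h0 : Measure.hausdorffMeasure ((d : ℝ≥0) : ℝ) K = 0 :=
    hausdorffMeasure_of_dimH_lt (by simpa using h)
  rw [Measure.hausdorffMeasure_apply] at h0
  have h1 := le_antisymm ((le_iSup₂_of_le (1 : ℝ≥0∞) one_pos le_rfl).trans h0.le) zero_le
  have h2 : (0 : ℝ≥0∞) < ENNReal.ofReal (δ / 2) := ENNReal.ofReal_pos.2 (by positivity)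
  rw [← h1] at h2
  simp only [iInf_lt_iff] at h2
  obtain ⟨t, ht, hdi, hs⟩ := h2
  obtain ⟨η, hη, hηs⟩ := posSumOfEncodable (show 0 < δ / 2 by positivity) ℕ
  obtain ⟨S, hS, hSle⟩ := hηs
  have pick : ∀ n, ∃ c : E, (t n).Nonempty → c ∈ t n := fun n => by
    by_cases hn : (t n).Nonempty
    · exact ⟨hn.some, fun _ => hn.some_mem⟩
    · exact ⟨0, fun h => absurd h hn⟩
  choose c hc using pick
  have fin : ∀ n, ediam (t n) ≠ ⊤ := fun n => ne_top_of_le_ne_top ENNReal.one_ne_top (hdi n)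
  have d1 : ∀ n, diam (t n) ≤ 1 := fun n => by
    have := ENNReal.toReal_mono ENNReal.one_ne_top (hdi n)
    simpa [diam] using this
  let r : ℕ → ℝ := fun n => max (diam (t n)) (min 1 (η n))
  have r0 : ∀ n, 0 < r n := fun n => lt_max_of_lt_right (lt_min one_pos (hη n))
  have cov : K ⊆ ⋃ n, ball (c n) (2 * r n) := fun x hx => by
    obtain ⟨n, hn⟩ := mem_iUnion.1 (ht hx)
    refine mem_iUnion.2 ⟨n, mem_ball.2 ?_⟩
    have a1 := dist_le_diam_of_mem' (fin n) hn (hc n ⟨x, hn⟩)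
    have a2 : diam (t n) ≤ r n := le_max_left _ _
    have := r0 n
    linarith
  obtain ⟨s, hs'⟩ := hK.elim_finite_subcover _ (fun n => isOpen_ball) cov
  refine ⟨s, c, r, fun n => ⟨r0 n, max_le (d1 n) (min_le_left _ _)⟩, hs', ?_⟩
  have b1 : ∀ n, r n ^ d ≤ diam (t n) ^ d + η n := fun n => by
    have m0 : 0 ≤ min 1 (η n) := (lt_min one_pos (hη n)).le
    have p0 : 0 ≤ diam (t n) ^ d := pow_nonneg diam_nonneg _
    rcases le_total (diam (t n)) (min 1 (η n)) with hh | hh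
    · have e : r n = min 1 (η n) := max_eq_right hh
      have := pow_le_of_le_one m0 (min_le_left 1 (η n)) (show d ≠ 0 by omega)
      have := min_le_right 1 (η n)
      rw [e]; linarith
    · have e : r n = diam (t n) := max_eq_left hh
      have := hη n
      rw [e]; linarith
  have b2 : ∑ n ∈ s, η n ≤ δ / 2 :=
    (sum_le_hasSum s (fun n _ => (hη n).le) hS).trans hSle
  have b3 : ∑ n ∈ s, diam (t n) ^ d ≤ δ / 2 := by
    have c1 : ∀ n, ENNReal.ofReal (diam (t n) ^ d)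
        ≤ ⨆ _ : (t n).Nonempty, ediam (t n) ^ ((d : ℝ≥0) : ℝ) := fun n => by
      by_cases hn : (t n).Nonempty
      · rw [iSup_pos hn, ENNReal.ofReal_pow diam_nonneg, diam, ENNReal.ofReal_toReal (fin n)]
        simp
      · rw [not_nonempty_iff_eq_empty.1 hn]
        simp [zero_pow (show d ≠ 0 by omega)]
    have c2 := ((Finset.sum_le_sum fun n (_ : n ∈ s) => c1 n).trans
      (ENNReal.sum_le_tsum s)).trans hs.le
    rw [← ENNReal.ofReal_sum_of_nonneg fun n _ => pow_nonneg diam_nonneg _] at c2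
    exact (ENNReal.ofReal_le_ofReal_iff (by positivity)).1 c2
  calc ∑ n ∈ s, r n ^ d ≤ ∑ n ∈ s, (diam (t n) ^ d + η n) := Finset.sum_le_sum fun n _ => b1 n
    _ ≤ δ := by rw [Finset.sum_add_distrib]; linarith

theorem main [FiniteDimensional ℝ E] [MeasurableSpace E] [BorelSpace E] (μ : Measure E)
    [μ.IsAddHaarMeasure] (K : Set E) (d : ℕ) (hd : 1 ≤ d) (hE : finrank ℝ E = d + 1)
    (hK : IsCompact K) (h : dimH K < d) (ε : ℝ) (hε : 0 < ε) :
    ∃ θ : E → ℝ, ContDiff ℝ 2 θ ∧ (∀ x, 0 ≤ θ x ∧ θ x ≤ 1) ∧ (∀ᶠ x in 𝓝ˢ K, θ x = 0) ∧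
      μ {x | θ x ≠ 1} ≤ ENNReal.ofReal ε ∧ ∫⁻ x, ‖fderiv ℝ θ x‖ₑ ∂μ ≤ ENNReal.ofReal ε := by
  obtain ⟨M, hM, hb⟩ := bump (E := E)
  have bt : μ (ball 0 1) ≠ ⊤ := measure_ball_lt_top.ne
  set v := (μ (ball 0 1)).toReal with hv
  have v0 : 0 ≤ v := ENNReal.toReal_nonneg
  set C := (M + 1) * (4 ^ (d + 1) * v) + 1 with hC
  have C0 : 0 < C := by positivity
  obtain ⟨s, c, r, hr, hcov, hsum⟩ := cover K d hd hK h (ε / C) (by positivity)
  choose φ hφ h01 hz hone hder using fun n => hb (c n) (r n) (hr n).1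
  have vb : ∀ n, μ (ball (c n) (4 * r n)) = ENNReal.ofReal (4 ^ (d + 1) * v * (r n ^ d * r n)) :=
    fun n => by
      have r0 := (hr n).1
      rw [Measure.addHaar_ball_of_pos μ _ (by positivity), hE, ← ENNReal.ofReal_toReal bt, ← hv,
        ← ENNReal.ofReal_mul (by positivity)]
      congr 1
      ring
  have fin : ∀ a : ℕ → ℝ, (∀ n, 0 ≤ a n ∧ a n ≤ C * r n ^ d) →
      ∑ n ∈ s, ENNReal.ofReal (a n) ≤ ENNReal.ofReal ε := fun a ha => by
    rw [← ENNReal.ofReal_sum_of_nonneg fun n _ => (ha n).1]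
    refine ENNReal.ofReal_le_ofReal ((Finset.sum_le_sum fun n _ => (ha n).2).trans ?_)
    rw [← Finset.mul_sum]
    exact (mul_le_mul_of_nonneg_left hsum C0.le).trans (mul_div_cancel₀ ε C0.ne').le
  have w0 : 0 ≤ 4 ^ (d + 1) * v := by positivity
  refine ⟨fun y => ∏ i ∈ s, φ i y, contDiff_prod fun i _ => hφ i, fun x =>
    ⟨Finset.prod_nonneg fun i _ => (h01 i x).1,
      Finset.prod_le_one (fun i _ => (h01 i x).1) fun i _ => (h01 i x).2⟩, ?_, ?_, ?_⟩
  · have o : IsOpen (⋃ n ∈ s, ball (c n) (2 * r n)) :=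
      isOpen_biUnion fun n _ => isOpen_ball
    filter_upwards [o.mem_nhdsSet.2 hcov] with x hx
    obtain ⟨n, hn, hx⟩ := mem_iUnion₂.1 hx
    exact Finset.prod_eq_zero hn (hz n x hx)
  · have sub : {x | (∏ i ∈ s, φ i x) ≠ 1} ⊆ ⋃ n ∈ s, ball (c n) (4 * r n) := fun x hx => by
      by_contra hn
      refine hx (Finset.prod_eq_one fun i hi => (hone i x fun hh => hn ?_).1)
      exact mem_iUnion₂.2 ⟨i, hi, hh⟩
    refine (measure_mono sub).trans ((measure_biUnion_finset_le s _).trans ?_)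
    simp only [vb]
    refine fin _ fun n => ?_
    have r0 := (hr n).1
    have p0 : 0 ≤ r n ^ d := by positivity
    refine ⟨by positivity, ?_⟩
    have a1 : r n ^ d * r n ≤ r n ^ d := mul_le_of_le_one_right p0 (hr n).2
    have a2 : 4 ^ (d + 1) * v ≤ C := by rw [hC]; nlinarith
    exact mul_le_mul a2 a1 (by positivity) C0.le
  · have pt : ∀ x, ‖fderiv ℝ (fun y => ∏ i ∈ s, φ i y) x‖ₑ ≤ ∑ n ∈ s,
        (ball (c n) (4 * r n)).indicator (fun _ => ENNReal.ofReal (M / r n)) x := fun x => by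
      rw [← ofReal_norm]
      refine (ENNReal.ofReal_le_ofReal (prod_bound s φ hφ h01 x)).trans ?_
      rw [ENNReal.ofReal_sum_of_nonneg fun n _ => norm_nonneg _]
      refine Finset.sum_le_sum fun n _ => ?_
      by_cases hx : x ∈ ball (c n) (4 * r n)
      · rw [indicator_of_mem hx]
        exact ENNReal.ofReal_le_ofReal (hder n x)
      · rw [(hone n x hx).2]
        simp
    refine (lintegral_mono pt).trans ?_
    rw [lintegral_finsetSum s fun n _ => measurable_const.indicator measurableSet_ball]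
    have e : ∀ n, ∫⁻ x, (ball (c n) (4 * r n)).indicator
        (fun _ => ENNReal.ofReal (M / r n)) x ∂μ
        = ENNReal.ofReal (M * (4 ^ (d + 1) * v) * r n ^ d) := fun n => by
      have r0 := (hr n).1
      rw [lintegral_indicator_const measurableSet_ball, vb, ← ENNReal.ofReal_mul (by positivity)]
      congr 1
      field_simp
    simp only [e]
    refine fin _ fun n => ?_
    have r0 := (hr n).1
    refine ⟨by positivity, mul_le_mul_of_nonneg_right ?_ (by positivity)⟩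
    rw [hC]; nlinarith

end CUT

theorem bCUT : St_CUT := by
  intro k K ε hK hdim hε
  have k0 : 1 ≤ k := by
    rcases Nat.eq_zero_or_pos k with h | h
    · subst h
      simp at hdim
    · exact h
  obtain ⟨j, rfl⟩ : ∃ j, k = j + 1 := ⟨k - 1, by omega⟩
  refine CUT.main volume K (2 * j + 1) (by omega) ?_ hK ?_ ε hε
  · rw [Module.finrank_pi_fintype]
    simp [Complex.finrank_real_complex]
    ring
  · have e : 2 * ((j + 1 : ℕ) : ℝ≥0∞) = ((2 * j + 1 : ℕ) : ℝ≥0∞) + 1 := by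
      push_cast
      ring
    rw [e] at hdim
    exact lt_of_add_lt_add_right hdim

end Pool.Agent.Lib.CHW
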