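import Pool.Agent.Lib.CHW.Blue

/-! The zero set of a holomorphic function lies in countably many smooth hypersurfaces. -/

open scoped Topology ENNReal
open Set MeasureTheory Metric Filter Module

noncomputable section

namespace Pool.Agent.Lib.CHW

namespace HYP

variable {V : Type} [NormedAddCommGroup V] [NormedSpace ℂ V]

/-- The derivative along a vector. -/
def dv (v : V) (f : V → ℂ) (z : V) : ℂ := fderiv ℂ f z v

theorem dv_hol [FiniteDimensional ℂ V] {O : Set V} (hO : IsOpen O) {μ : V → ℂ}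
    (hμ : DifferentiableOn ℂ μ O) (v : V) (k : ℕ) : DifferentiableOn ℂ ((dv v)^[k] μ) O := by
  induction k with
  | zero => exact hμ
  | succ k ih =>
    rw [Function.iterate_succ_apply']
    exact SV.H85.differentiableOn_fderiv_apply hO ih v

theorem line_der {O : Set V} (hO : IsOpen O) {f : V → ℂ} (hf : DifferentiableOn ℂ f O) (y v : V)
    (t : ℂ) (ht : y + t • v ∈ O) :
    HasDerivAt (fun s : ℂ => f (y + s • v)) (dv v f (y + t • v)) t := by
  have h1 : HasDerivAt (fun s : ℂ => y + s • v) v t := by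
    simpa using ((hasDerivAt_id t).smul_const v).const_add y
  exact (hf.differentiableAt (hO.mem_nhds ht)).hasFDerivAt.comp_hasDerivAt t h1

theorem iter_eq [FiniteDimensional ℂ V] {O : Set V} (hO : IsOpen O) {μ : V → ℂ}
    (hμ : DifferentiableOn ℂ μ O) (y v : V) (h : ∀ t ∈ ball (0 : ℂ) 2, y + t • v ∈ O) (k : ℕ) :
    ∀ t ∈ ball (0 : ℂ) 2,
      iteratedDeriv k (fun s : ℂ => μ (y + s • v)) t = (dv v)^[k] μ (y + t • v) := by
  induction k with
  | zero => intro t _; simp
  | succ k ih =>
    intro t ht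
    rw [iteratedDeriv_succ, Function.iterate_succ_apply']
    have e : iteratedDeriv k (fun s : ℂ => μ (y + s • v)) =ᶠ[𝓝 t]
        fun s : ℂ => (dv v)^[k] μ (y + s • v) := by
      filter_upwards [isOpen_ball.mem_nhds ht] with s hs using ih s hs
    rw [e.deriv_eq]
    exact (line_der hO (dv_hol hO hμ v k) y v t (h t ht)).deriv

theorem zero [FiniteDimensional ℂ V] {O : Set V} (hO : IsOpen O) {μ : V → ℂ}
    (hμ : DifferentiableOn ℂ μ O) (y v : V) (h : ∀ t ∈ ball (0 : ℂ) 2, y + t • v ∈ O)
    (h0 : ∀ k, (dv v)^[k] μ y = 0) : μ (y + v) = 0 := by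
  have hd : DifferentiableOn ℂ (fun s : ℂ => μ (y + s • v)) (ball 0 2) := fun t ht =>
    (line_der hO hμ y v t (h t ht)).differentiableAt.differentiableWithinAt
  have h1 : (1 : ℂ) ∈ ball (0 : ℂ) 2 := by simp
  have hs := Complex.hasSum_taylorSeries_on_ball hd h1
  have e : ∀ k, iteratedDeriv k (fun s : ℂ => μ (y + s • v)) 0 = 0 := fun k => by
    rw [iter_eq hO hμ y v h k 0 (mem_ball_self two_pos), zero_smul, add_zero, h0]
  simp only [e, smul_zero, one_smul] at hs
  exact hs.unique hasSum_zero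

end HYP

theorem bHYP : St_HYP := by
  intro V _ _ _ O μ hO hc hμ hne
  have : ProperSpace V := FiniteDimensional.proper ℂ V
  refine ⟨fun k => (HYP.dv (TopologicalSpace.denseSeq V k.unpair.1))^[k.unpair.2] μ,
    fun k => HYP.dv_hol hO hμ _ _, fun y hy h0 => ?_⟩
  by_contra hno
  push Not at hno
  have hall : ∀ i k, (HYP.dv (TopologicalSpace.denseSeq V i))^[k] μ y = 0 := by
    intro i k
    induction k with
    | zero => exact h0
    | succ k ih =>
      have h1 := hno (Nat.pair i k)
      simp only [Nat.unpair_pair] at h1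
      rw [Function.iterate_succ_apply']
      show fderiv ℂ _ y _ = 0
      rw [h1 ih]
      rfl
  obtain ⟨ε, hε, hB⟩ := Metric.isOpen_iff.1 hO y hy
  have hz : ∀ v ∈ ball (0 : V) (ε / 2), μ (y + v) = 0 := by
    intro v hv
    by_contra hv0
    have hm : ∀ w ∈ ball (0 : V) (ε / 2), ∀ t ∈ ball (0 : ℂ) 2, y + t • w ∈ O := by
      intro w hw t ht
      apply hB
      rw [mem_ball_zero_iff] at hw ht
      rw [mem_ball, dist_eq_norm, add_sub_cancel_left, norm_smul]
      nlinarith [norm_nonneg t, norm_nonneg w]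
    have hyv : y + v ∈ O := by simpa using hm v hv 1 (by simp)
    have hcv : ContinuousAt (fun w : V => μ (y + w)) v :=
      ContinuousAt.comp (f := fun w : V => y + w) (hμ.continuousOn.continuousAt (hO.mem_nhds hyv))
        (by fun_prop)
    have hn : {w : V | μ (y + w) ≠ 0} ∩ ball (0 : V) (ε / 2) ∈ 𝓝 v :=
      inter_mem (hcv.eventually_ne hv0) (isOpen_ball.mem_nhds hv)
    obtain ⟨i, hi⟩ := (TopologicalSpace.denseRange_denseSeq V).mem_nhds hn
    exact hi.1 (HYP.zero hO hμ y _ (hm _ hi.2) (hall i))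
  have hev : μ =ᶠ[𝓝 y] 0 := by
    filter_upwards [ball_mem_nhds y (half_pos hε)] with x hx
    have := hz (x - y) (by rwa [mem_ball_zero_iff, ← dist_eq_norm])
    simpa using this
  obtain ⟨x, hx, hx0⟩ := hne
  exact hx0 (SV.H85.eqOn_zero_of_preconnected hO hc hμ hy hev hx)

end Pool.Agent.Lib.CHW
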