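import Pool.Agent.Lib.CHW.Blue

/-! Project CHW, block LOC: finitely many holomorphic branches near a regular value. -/

open scoped Topology
open Set Metric Filter Module

noncomputable section

namespace Pool.Agent.Lib.CHW.LOC

variable {V F : Type} [NormedAddCommGroup V] [NormedSpace ℂ V] [NormedAddCommGroup F]
  [NormedSpace ℂ F] {A : Type}

theorem surj_iff [FiniteDimensional ℂ F] (f : V →L[ℂ] F) :
    Function.Surjective f ↔ (finrank ℂ F : Cardinal) ≤ (f : V →ₗ[ℂ] F).rank := by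
  constructor
  · intro h
    have h1 : LinearMap.range (f : V →ₗ[ℂ] F) = ⊤ := LinearMap.range_eq_top.2 h
    rw [LinearMap.rank, h1, rank_top, finrank_eq_rank]
  · intro h
    rw [LinearMap.rank, ← finrank_eq_rank, Nat.cast_le] at h
    exact LinearMap.range_eq_top.1
      (Submodule.eq_top_of_finrank_eq (le_antisymm (Submodule.finrank_le _) h))

theorem open_surj [FiniteDimensional ℂ F] :
    IsOpen {f : V →L[ℂ] F | Function.Surjective f} := by
  have h : {f : V →L[ℂ] F | Function.Surjective f} =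
      {f : V →L[ℂ] F | (finrank ℂ F : Cardinal) ≤ (f : V →ₗ[ℂ] F).rank} :=
    Set.ext fun f => surj_iff f
  rw [h]
  exact isOpen_setOfPred_nat_le_rank _

theorem ker_of_not_surj (f : V →L[ℂ] ℂ) (G : V →L[ℂ] F) (hG : Function.Surjective G)
    (hn : ¬ Function.Surjective (f.prod G)) (v : V) (hv : G v = 0) : f v = 0 := by
  by_contra h0
  refine hn fun p => ?_
  obtain ⟨w, hw⟩ := hG p.2
  refine ⟨w + ((p.1 - f w) / f v) • v, Prod.ext ?_ ?_⟩
  · show f (w + ((p.1 - f w) / f v) • v) = p.1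
    rw [map_add, map_smul, smul_eq_mul, div_mul_cancel₀ _ h0, add_sub_cancel]
  · show G (w + ((p.1 - f w) / f v) • v) = p.2
    rw [map_add, map_smul, hv, smul_zero, add_zero, hw]

theorem cm_diff {g : V → F} {O : Set V} (hO : IsOpen O) (hg : DifferentiableOn ℂ g O)
    {y : ℂ × V} (hy : y.2 ∈ O) : DifferentiableAt ℂ (cm g) y :=
  differentiableAt_fst.smul ((hg.differentiableAt (hO.mem_nhds hy)).comp y differentiableAt_snd)

omit [NormedAddCommGroup V] [NormedSpace ℂ V] in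
theorem cone_smul {K : A → Set V} {g : A → V → F} {b : F} (hb : b ∈ Cone K g) (t : ℂ) :
    t • b ∈ Cone K g := by
  obtain ⟨a, z, hz, s, rfl⟩ := hb
  exact ⟨a, z, hz, t * s, smul_smul _ _ _⟩

omit [NormedSpace ℂ V] in
theorem bound {u : V → F} {K : Set V} (hK : IsCompact K) (hu : ContinuousOn u K)
    (h0 : ∀ z ∈ K, u z ≠ 0) (b : F) :
    ∃ R : ℝ, ∀ c ∈ ball b 1, ∀ z ∈ K, ∀ t : ℂ, t • u z = c → ‖t‖ ≤ R := by
  obtain ⟨M, hM⟩ := (hK.image_of_continuousOn
    (hu.norm.inv₀ fun z hz => norm_ne_zero_iff.2 (h0 z hz))).bddAbove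
  refine ⟨(‖b‖ + 1) * M, fun c hc z hz t ht => ?_⟩
  have h1 : ‖u z‖⁻¹ ≤ M := hM ⟨z, hz, rfl⟩
  have h2 : 0 < ‖u z‖ := norm_pos_iff.2 (h0 z hz)
  have h3 : ‖c‖ ≤ ‖b‖ + 1 := norm_le_of_mem_closedBall (ball_subset_closedBall hc)
  have h4 : ‖t‖ = ‖c‖ * ‖u z‖⁻¹ := by
    rw [← ht, norm_smul]
    field_simp
  rw [h4]
  exact mul_le_mul h3 h1 (inv_nonneg.2 h2.le) (by positivity)

end Pool.Agent.Lib.CHW.LOC

namespace Pool.Agent.Lib.CHW

open LOC

theorem bLOC (hF : St_FACT) (hO : St_ONTO) : St_LOC := by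
  intro V F _ _ _ _ _ _ A _ O K h u b hD hu hs
  have hh : ∀ a, DifferentiableOn ℂ (h a) (O a) := fun a => (hD.hol a).fst
  have hh' : ∀ a, DifferentiableOn ℂ (u a) (O a) := fun a => (hD.hol a).snd
  have hne : Cone K (fun a z => (h a z, u a z)) ≠ univ := by
    intro e
    have h1 : ((1 : ℂ), (0 : F)) ∈ Cone K (fun a z => (h a z, u a z)) := e ▸ mem_univ _
    obtain ⟨a, z, hz, t, ht⟩ := h1
    have h2 : (1 : ℂ) = t • h a z := congrArg Prod.fst ht
    have h3 : (0 : F) = t • u a z := congrArg Prod.snd ht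
    rcases smul_eq_zero.1 h3.symm with h4 | h4
    · rw [h4, zero_smul] at h2
      exact one_ne_zero h2
    · exact hu a z (hD.sub a hz) h4
  have hns := hO V (ℂ × F) A O K _ hD
    (fun a z hz e => hu a z hz (congrArg Prod.snd e)) hne
  have pt : ∀ a, ∀ y : ℂ × V, y.2 ∈ K a → cm (u a) y = b → ∃ lam : F → ℂ,
      (∀ᶠ c in 𝓝 b, DifferentiableAt ℂ lam c ∧ lam c ∈ Lam K h u c) ∧
      ∀ᶠ x in 𝓝 y, cm (h a) x = lam (cm (u a) x) := by
    intro a y hy hb
    have hW : IsOpen (Prod.snd ⁻¹' O a : Set (ℂ × V)) := (hD.opn a).preimage continuous_snd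
    have hyW : y ∈ (Prod.snd ⁻¹' O a : Set (ℂ × V)) := hD.sub a hy
    have hsy : Function.Surjective (fderiv ℂ (cm (u a)) y) := hs a y.2 hy y.1 hb
    have hc : ContinuousAt (fderiv ℂ (cm (u a))) y :=
      (SV.H85.continuousOn_fderiv hW fun x hx =>
        (cm_diff (hD.opn a) (hh' a) hx).differentiableWithinAt).continuousAt (hW.mem_nhds hyW)
    have hev : ∀ᶠ x in 𝓝 y, Function.Surjective (fderiv ℂ (cm (u a)) x) :=
      hc.eventually (open_surj.mem_nhds hsy)
    obtain ⟨hm, lam, hl, he⟩ := hF (ℂ × V) F ℂ (cm (u a)) (cm (h a)) y (by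
      filter_upwards [hev, hW.mem_nhds hyW] with x hx hxW
      have d1 := cm_diff (hD.opn a) (hh' a) hxW
      have d2 := cm_diff (hD.opn a) (hh a) hxW
      refine ⟨d1, d2, ker_of_not_surj _ _ hx ?_⟩
      have e : cm (fun z => (h a z, u a z)) = fun p => (cm (h a) p, cm (u a) p) := rfl
      have h5 := hns a x.2 hxW x.1
      rw [e, (d2.hasFDerivAt.prodMk d1.hasFDerivAt).fderiv] at h5
      exact h5) hsy
    rw [hb] at hm hl
    refine ⟨lam, hl.and ?_, he⟩
    have h6 : cm (u a) '' {x | x.2 ∈ O a ∧ cm (h a) x = lam (cm (u a) x)} ∈ 𝓝 b := by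
      rw [← hm]
      exact image_mem_map (inter_mem (hW.mem_nhds hyW) he)
    filter_upwards [h6] with c hc
    obtain ⟨x, ⟨h7, h8⟩, rfl⟩ := hc
    rw [← h8]
    exact cone_smul (hD.cov a x.2 h7) x.1
  have ch : ∀ a, ∃ S : Set (F → ℂ), S.Finite ∧
      (∀ lam ∈ S, ∀ᶠ c in 𝓝 b, DifferentiableAt ℂ lam c ∧ lam c ∈ Lam K h u c) ∧
      ∀ᶠ c in 𝓝 b, ∀ z ∈ K a, ∀ t : ℂ, t • u a z = c → ∃ lam ∈ S, t • h a z = lam c := by
    intro a
    obtain ⟨R, hR⟩ := bound (hD.cpt a) ((hh' a).continuousOn.mono (hD.sub a))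
      (fun z hz => hu a z (hD.sub a hz)) b
    have hZ : IsCompact (closedBall (0 : ℂ) R ×ˢ K a) := (isCompact_closedBall _ _).prod (hD.cpt a)
    have key := hZ.induction_on (p := fun s => ∃ S : Set (F → ℂ), S.Finite ∧
        (∀ lam ∈ S, ∀ᶠ c in 𝓝 b, DifferentiableAt ℂ lam c ∧ lam c ∈ Lam K h u c) ∧
        ∀ᶠ c in 𝓝 b, ∀ y ∈ s, cm (u a) y = c → ∃ lam ∈ S, cm (h a) y = lam c)
      ⟨∅, finite_empty, fun _ e => e.elim, Eventually.of_forall fun _ _ e => e.elim⟩
      (by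
        rintro s t hst ⟨S, h1, h2, h3⟩
        exact ⟨S, h1, h2, h3.mono fun c hc y hy => hc y (hst hy)⟩)
      (by
        rintro s t ⟨S, h1, h2, h3⟩ ⟨T, k1, k2, k3⟩
        refine ⟨S ∪ T, h1.union k1, fun lam hl => hl.elim (h2 lam) (k2 lam), ?_⟩
        filter_upwards [h3, k3] with c hc kc y hy e
        rcases hy with hy | hy
        · obtain ⟨lam, m1, m2⟩ := hc y hy e
          exact ⟨lam, Or.inl m1, m2⟩
        · obtain ⟨lam, m1, m2⟩ := kc y hy e
          exact ⟨lam, Or.inr m1, m2⟩)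
      (by
        intro y hy
        by_cases hb : cm (u a) y = b
        · obtain ⟨lam, h1, h2⟩ := pt a y hy.2 hb
          refine ⟨_, mem_nhdsWithin_of_mem_nhds h2, {lam}, finite_singleton _, ?_, ?_⟩
          · rintro _ rfl
            exact h1
          · refine Eventually.of_forall fun c x hx e => ⟨lam, rfl, ?_⟩
            rw [← e]
            exact hx
        · obtain ⟨P, Q, hP, hQ, m1, m2, hd⟩ := t2_separation hb
          have hc : ContinuousAt (cm (u a)) y :=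
            (cm_diff (hD.opn a) (hh' a) (hD.sub a hy.2)).continuousAt
          refine ⟨_, mem_nhdsWithin_of_mem_nhds (hc.preimage_mem_nhds (hP.mem_nhds m1)), ∅,
            finite_empty, fun _ e => e.elim, ?_⟩
          filter_upwards [hQ.mem_nhds m2] with c hc' x hx e
          exact (Set.disjoint_left.1 hd hx (e ▸ hc')).elim)
    obtain ⟨S, h1, h2, h3⟩ := key
    refine ⟨S, h1, h2, ?_⟩
    filter_upwards [h3, ball_mem_nhds b one_pos] with c hc hc1 z hz t e
    exact hc (t, z) ⟨mem_closedBall_zero_iff.2 (hR c hc1 z hz t e), hz⟩ e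
  choose S s1 s2 s3 using ch
  obtain ⟨m, lam, -, hl⟩ := (finite_iUnion s1).fin_param
  have hi : ∀ i, ∀ᶠ c in 𝓝 b, DifferentiableAt ℂ (lam i) c ∧ lam i c ∈ Lam K h u c := by
    intro i
    have h1 : lam i ∈ ⋃ a, S a := hl ▸ mem_range_self i
    obtain ⟨a, ha⟩ := mem_iUnion.1 h1
    exact s2 a _ ha
  obtain ⟨ε, hε, hb⟩ := Metric.mem_nhds_iff.1
    ((eventually_all.2 hi).and (eventually_all.2 s3))
  refine ⟨ε, hε, m, lam, fun i c hc => ((hb hc).1 i).1.differentiableWithinAt, fun c hc => ?_⟩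
  refine Subset.antisymm ?_ ?_
  · rintro x ⟨a, z, hz, t, ht⟩
    have h2 : x = t • h a z := congrArg Prod.fst ht
    have h3 : c = t • u a z := congrArg Prod.snd ht
    obtain ⟨l, m1, m2⟩ := (hb hc).2 a z hz t h3.symm
    have h4 : l ∈ range lam := hl ▸ mem_iUnion.2 ⟨a, m1⟩
    obtain ⟨i, rfl⟩ := h4
    exact ⟨i, m2.symm.trans h2.symm⟩
  · rintro _ ⟨i, rfl⟩
    exact ((hb hc).1 i).2

end Pool.Agent.Lib.CHW
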