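import Pool.Agent.Lib.CHW.Blue

/-! Project CHW: a minor of the derivative. -/

open scoped Topology
open Set Module

noncomputable section

namespace Pool.Agent.Lib.CHW

theorem MIN.prod_diff {V ι : Type} [NormedAddCommGroup V] [NormedSpace ℂ V] {O : Set V}
    (u : Finset ι) (f : ι → V → ℂ) (h : ∀ b, DifferentiableOn ℂ (f b) O) :
    DifferentiableOn ℂ (fun x => ∏ b ∈ u, f b x) O := by
  classical
  induction u using Finset.induction_on with
  | empty => simp
  | insert a u ha ih =>
    simp only [Finset.prod_insert ha]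
    exact (h a).mul ih

theorem bMIN : St_MIN := by
  intro V F _ _ _ _ _ _ O g y r hO hg _ hr
  let L : V → V →ₗ[ℂ] F := fun x => (fderiv ℂ g x : V →ₗ[ℂ] F)
  let e : LinearMap.range (L y) ≃ₗ[ℂ] (Fin (rk g y) → ℂ) := (Module.finBasis ℂ _).equivFun
  obtain ⟨p, hp⟩ := LinearMap.exists_extend e.toLinearMap
  obtain ⟨s, hs⟩ := (L y).rangeRestrict.exists_rightInverse_of_surjective
    (LinearMap.range_rangeRestrict _)
  let i : (Fin (rk g y) → ℂ) →ₗ[ℂ] V := s ∘ₗ e.symm.toLinearMap
  refine ⟨fun x => (LinearMap.toMatrix' (p ∘ₗ L x ∘ₗ i)).det, ?_, ?_, fun x _ hx => ?_⟩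
  · simp only [Matrix.det_apply', LinearMap.toMatrix'_apply]
    refine DifferentiableOn.fun_sum fun σ _ => DifferentiableOn.const_mul ?_ _
    refine MIN.prod_diff _ (fun b x => p (fderiv ℂ g x (i (Pi.single b 1))) (σ b)) fun b => ?_
    exact (LinearMap.toContinuousLinearMap
      (LinearMap.proj (σ b) ∘ₗ p)).differentiable.comp_differentiableOn
      (Pool.Agent.Lib.SV.H85.differentiableOn_fderiv_apply hO hg (i _))
  · have h : p ∘ₗ L y ∘ₗ i = LinearMap.id := by
      refine LinearMap.ext fun v => ?_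
      have h1 := LinearMap.congr_fun hs (e.symm v)
      have h2 := LinearMap.congr_fun hp (e.symm v)
      have h3 : L y (i v) = (e.symm v : F) := congrArg Subtype.val h1
      exact (congrArg p h3).trans (h2.trans (e.apply_symm_apply v))
    simp [h]
  · by_contra h0
    have h : LinearMap.det (p ∘ₗ L x ∘ₗ i) ≠ 0 := by rwa [← LinearMap.det_toMatrix']
    have h1 : LinearMap.range (p ∘ₗ L x ∘ₗ i) = ⊤ :=
      LinearMap.range_eq_top.2 (LinearMap.equivOfDetNeZero _ h).surjective
    have h2 : (⊤ : Submodule ℂ (Fin (rk g y) → ℂ)) ≤ (LinearMap.range (L x)).map p := by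
      rw [← h1, LinearMap.range_comp]
      exact Submodule.map_mono (LinearMap.range_comp_le_range _ _)
    have h3 := (Submodule.finrank_mono h2).trans (Submodule.finrank_map_le p _)
    rw [finrank_top, Module.finrank_fin_fun] at h3
    exact absurd (h3.trans hx) (not_le.2 hr)

end Pool.Agent.Lib.CHW
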