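import Pool.Agent.Lib.CHW.Blue

/-! Project CHW: induction on the dimension of the target. -/

open scoped Topology ENNReal
open Set MeasureTheory Metric Filter Module

set_option linter.unusedVariables false
set_option linter.unusedSectionVars false

noncomputable section

namespace Pool.Agent.Lib.CHW

namespace ONE

variable {V F : Type} [NormedAddCommGroup V] [NormedSpace ℂ V] [NormedAddCommGroup F]
  [NormedSpace ℂ F] {A : Type} {O K : A → Set V} {h : A → V → ℂ} {u : A → V → F}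

theorem dat_map {W : Type} [NormedAddCommGroup W] [NormedSpace ℂ W] {g : A → V → F}
    (hD : Dat O K g) (π : F →L[ℂ] W) : Dat O K fun a z => π (g a z) :=
  ⟨hD.opn, hD.cpt, hD.sub, fun a => π.differentiable.comp_differentiableOn (hD.hol a),
    fun a z hz => by
      obtain ⟨b, w, hw, t, ht⟩ := hD.cov a z hz
      exact ⟨b, w, hw, t, by rw [ht, map_smul]⟩⟩

theorem cone_smul {g : A → V → F} {b : F} (hb : b ∈ Cone K g) (s : ℂ) : s • b ∈ Cone K g := by
  obtain ⟨a, z, hz, t, rfl⟩ := hb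
  exact ⟨a, z, hz, s * t, smul_smul _ _ _⟩

theorem bound [Finite A] (hD : Dat O K fun a z => (h a z, u a z))
    (hu : ∀ a, ∀ z ∈ O a, u a z ≠ 0) : ∃ C : ℝ, ∀ b, ∀ x ∈ Lam K h u b, ‖x‖ ≤ C * ‖b‖ := by
  have h1 : ∀ a, ∃ C : ℝ, ∀ z ∈ K a, ‖h a z‖ / ‖u a z‖ ≤ C := by
    intro a
    have h2 := ((hD.hol a).mono (hD.sub a)).continuousOn
    have h3 : ContinuousOn (fun z => ‖h a z‖ / ‖u a z‖) (K a) :=
      h2.fst.norm.div h2.snd.norm fun z hz => norm_ne_zero_iff.2 (hu a z (hD.sub a hz))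
    obtain ⟨C, hC⟩ := (hD.cpt a).bddAbove_image h3
    exact ⟨C, fun z hz => hC ⟨z, hz, rfl⟩⟩
  choose C hC using h1
  obtain ⟨M, hM⟩ := (finite_range C).bddAbove
  refine ⟨M, fun b x hx => ?_⟩
  obtain ⟨a, z, hz, t, ht⟩ := hx
  obtain ⟨h2, h3⟩ := Prod.ext_iff.1 ht
  have h2' : x = t * h a z := h2
  have h3' : b = t • u a z := h3
  have h4 := (div_le_iff₀ (norm_pos_iff.2 (hu a z (hD.sub a hz)))).1
    ((hC a z hz).trans (hM ⟨a, rfl⟩))
  rw [h2', h3', norm_mul, norm_smul]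
  nlinarith [norm_nonneg t]

theorem onto [FiniteDimensional ℂ V] [FiniteDimensional ℂ F] [Finite A] (hC : St_CRIT)
    (hL : St_LOC) (hS : St_SYM) (hD : Dat O K fun a z => (h a z, u a z))
    (hu : ∀ a, ∀ z ∈ O a, u a z ≠ 0) (hne : ∃ a, (O a).Nonempty) (ho : Cone K u = univ) :
    ∃ e P, Mon e P ∧ ∃ a, ∃ z ∈ O a, ∀ᶠ y in 𝓝 z, P (h a y, u a y) = 0 := by
  obtain ⟨a₀, z₀, hz₀⟩ := hne
  have : Nontrivial F := ⟨_, _, hu a₀ z₀ hz₀⟩
  have hDu : Dat O K u := dat_map hD (ContinuousLinearMap.snd ℂ ℂ F)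
  obtain ⟨-, S, -, hS2, -, hS4⟩ := hC V F A O K u hDu hu
  obtain ⟨C, hb⟩ := bound hD hu
  obtain ⟨e, P, hP, G, hG1, hG2, hG3⟩ := hS F (Lam K h u) S C hS2
    (fun b hb' => hL V F A O K h u b hD hu fun a z hz t ht => hS4 a z hz t (ht ▸ hb')) hb
    (fun t b x hx => cone_smul hx t)
  obtain ⟨b, hb1, hb2⟩ := (dense_compl_singleton (0 : F)).inter_open_nonempty G hG1 hG2.nonempty
  obtain ⟨a, z, hz, t, rfl⟩ : b ∈ Cone K u := ho ▸ mem_univ b
  have ht : t ≠ 0 := fun h0 => hb2 (by simp [h0])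
  have hO := (hD.opn a).mem_nhds (hD.sub a hz)
  refine ⟨e, P, hP, a, z, hD.sub a hz, ?_⟩
  have h1 : ContinuousAt (fun y => t • u a y) z :=
    ((hDu.hol a).differentiableAt hO).continuousAt.const_smul t
  filter_upwards [h1.eventually (hG1.mem_nhds hb1), hO] with y hy1 hy2
  have h2 := hG3 _ hy1 (t * h a y) (cone_smul (hD.cov a y hy2) t)
  have h3 := hP.hom t (h a y, u a y)
  have h4 : t ^ e * P (h a y, u a y) = 0 := h3.symm.trans h2
  exact (mul_eq_zero.1 h4).resolve_left (pow_ne_zero e ht)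

end ONE

open ONE in
theorem bONE (hC : St_CRIT) (hL : St_LOC) (hS : St_SYM) : St_ONE := by
  intro V F _ _ _ _ _ _ A _ O K h u
  obtain ⟨N, hN⟩ : ∃ N, finrank ℂ F ≤ N := ⟨_, le_rfl⟩
  induction N generalizing F with
  | zero =>
    rintro hD hu ⟨a, z, hz⟩
    have : Subsingleton F := Module.finrank_zero_iff.1 (Nat.le_zero.1 hN)
    exact absurd (Subsingleton.elim _ _) (hu a z hz)
  | succ N ih =>
    intro hD hu hne
    by_cases ho : Cone K u = univ
    · exact onto hC hL hS hD hu hne ho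
    obtain ⟨b, hb⟩ := (ne_univ_iff_exists_notMem _).1 ho
    have hDu : Dat O K u := dat_map hD (ContinuousLinearMap.snd ℂ ℂ F)
    have hb0 : b ≠ 0 := by
      rintro rfl
      obtain ⟨a, z, hz⟩ := hne
      exact hb (zero_smul ℂ (u a z) ▸ cone_smul (hDu.cov a z hz) 0)
    obtain ⟨l, -, hl⟩ := exists_dual_vector ℂ b (norm_ne_zero_iff.2 hb0)
    have hl0 : l b ≠ 0 := by
      rw [hl]
      exact RCLike.ofReal_ne_zero.2 (norm_ne_zero_iff.2 hb0)
    let W : Submodule ℂ F := LinearMap.ker (l : F →ₗ[ℂ] ℂ)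
    have hW : finrank ℂ W ≤ N := by
      have h1 : finrank ℂ W < finrank ℂ F := Submodule.finrank_lt fun h2 => by
        have h3 : b ∈ W := h2 ▸ Submodule.mem_top
        exact hl0 h3
      omega
    let π : F →L[ℂ] W := (ContinuousLinearMap.id ℂ F - ((l b)⁻¹ • l).smulRight b).codRestrict W
      fun x => by
        show l (x - ((l b)⁻¹ * l x) • b) = 0
        rw [map_sub, map_smul, smul_eq_mul]
        field_simp
        ring
    obtain ⟨e, P, hP, a, z, hz, hv⟩ := ih W (fun a z => π (u a z)) hW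
      (dat_map hD ((ContinuousLinearMap.id ℂ ℂ).prodMap π)) (fun a z hz h0 => by
        have h1 : u a z - ((l b)⁻¹ * l (u a z)) • b = 0 := congrArg Subtype.val h0
        have h2 : u a z = ((l b)⁻¹ * l (u a z)) • b := sub_eq_zero.1 h1
        have h3 : (l b)⁻¹ * l (u a z) ≠ 0 := fun h4 => hu a z hz (by rw [h2, h4, zero_smul])
        have h4 := cone_smul (hDu.cov a z hz) ((l b)⁻¹ * l (u a z))⁻¹
        nth_rewrite 2 [h2] at h4
        rw [inv_smul_smul₀ h3] at h4
        exact hb h4) hne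
    refine ⟨e, fun p => P (p.1, π p.2), ⟨?_, fun t p => ?_, ?_⟩, a, z, hz, hv⟩
    · exact hP.hol.comp (differentiable_fst.prodMk (π.differentiable.comp differentiable_snd))
    · rw [← hP.hom, Prod.smul_snd, map_smul]
      rfl
    · simpa only [map_zero] using hP.one

end Pool.Agent.Lib.CHW
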