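import Pool.Agent.Lib.CHW.Blue

/-! If the cone is not everything, the map to the cone is nowhere a submersion. -/

open scoped Topology ENNReal
open Set MeasureTheory Metric Filter Module

namespace Pool.Agent.Lib.CHW

namespace ONTO

variable {V F : Type} [NormedAddCommGroup V] [NormedSpace ℂ V] [FiniteDimensional ℂ V]
  [NormedAddCommGroup F] [NormedSpace ℂ F] [FiniteDimensional ℂ F] {A : Type}

theorem mem_nhds (hFACT : St_FACT) {O K : A → Set V} {g : A → V → F} (hD : Dat O K g) {a : A}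
    {z : V} (hz : z ∈ O a) {t : ℂ} (hs : Function.Surjective (fderiv ℂ (cm (g a)) (t, z))) :
    Cone K g ∈ 𝓝 (t • g a z) := by
  have hO : ∀ᶠ y : ℂ × V in 𝓝 (t, z), y.2 ∈ O a :=
    continuous_snd.continuousAt.eventually ((hD.opn a).mem_nhds hz)
  have hd : ∀ y : ℂ × V, y.2 ∈ O a → DifferentiableAt ℂ (cm (g a)) y := fun y hy =>
    differentiableAt_fst.smul
      (((hD.hol a).differentiableAt ((hD.opn a).mem_nhds hy)).comp y differentiableAt_snd)
  obtain ⟨hm, -⟩ := hFACT (ℂ × V) F F (cm (g a)) (cm (g a)) (t, z)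
    (hO.mono fun y hy => ⟨hd y hy, hd y hy, fun v hv => hv⟩) hs
  have : Cone K g ∈ map (cm (g a)) (𝓝 (t, z)) := by
    rw [mem_map]
    filter_upwards [hO] with y hy
    obtain ⟨b, w, hw, s, hs⟩ := hD.cov a y.2 hy
    exact ⟨b, w, hw, y.1 * s, by rw [mul_smul, ← hs]; rfl⟩
  rw [hm] at this
  exact this

end ONTO

theorem bONTO (hCRIT : St_CRIT) (hCON : St_CON) (hFACT : St_FACT) : St_ONTO := by
  intro V F _ _ _ _ _ _ A _ O K g hD hne hC a z hz t hs
  have : Nontrivial F := ⟨⟨g a z, 0, hne a z hz⟩⟩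
  obtain ⟨hcl, S, hS, hd, -, hreg⟩ := hCRIT V F A O K g hD hne
  have hd' : dimH S + 1 < 2 * (finrank ℂ F : ℝ≥0∞) := by
    have hfin : dimH S ≠ ⊤ := by
      intro h
      rw [h, top_add, top_le_iff] at hd
      exact ENNReal.mul_ne_top (by simp) (by simp) hd
    exact lt_of_lt_of_le (ENNReal.add_lt_add_left hfin (by norm_num)) hd
  obtain ⟨hpre, hden⟩ := hCON F S hS hd'
  apply hC
  have hsub : Sᶜ ⊆ interior (Cone K g) := by
    refine hpre.subset_left_of_subset_union isOpen_interior hcl.isOpen_compl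
      (disjoint_compl_right.mono_left interior_subset) ?_ ?_
    · intro b hb
      by_cases hbC : b ∈ Cone K g
      · left
        obtain ⟨c, w, hw, s, rfl⟩ := hbC
        exact mem_interior_iff_mem_nhds.2
          (ONTO.mem_nhds hFACT hD (hD.sub c hw) (hreg c w hw s hb))
      · exact Or.inr hbC
    · obtain ⟨b, hb1, hb2⟩ := hden.inter_open_nonempty (interior (Cone K g)) isOpen_interior
        ⟨_, mem_interior_iff_mem_nhds.2 (ONTO.mem_nhds hFACT hD hz hs)⟩
      exact ⟨b, hb2, hb1⟩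
  rw [← univ_subset_iff, ← hden.closure_eq]
  exact closure_minimal (hsub.trans interior_subset) hcl

end Pool.Agent.Lib.CHW
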