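import Pool.Agent.Lib.CHW.B_FACT

/-! Local parametrisation of a smooth hypersurface. -/

open scoped Topology ENNReal
open Set MeasureTheory Metric Filter Module

noncomputable section

namespace Pool.Agent.Lib.CHW

theorem bPAR : St_PAR := by
  intro V _ _ _ O ν y hO hy hν h0 hd
  set L : V →L[ℂ] ℂ := fderiv ℂ ν y with hL
  set W : Submodule ℂ V := LinearMap.ker (L : V →ₗ[ℂ] ℂ) with hW
  have hL0 : (L : V →ₗ[ℂ] ℂ) ≠ 0 := fun h => hd (ContinuousLinearMap.ext fun v =>
    LinearMap.congr_fun h v)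
  have hr : finrank ℂ W + 1 = finrank ℂ V := Module.Dual.finrank_ker_add_one_of_ne_zero hL0
  obtain ⟨p₀, hp₀⟩ := LinearMap.exists_extend (LinearMap.id : W →ₗ[ℂ] W)
  set p : V →L[ℂ] W := LinearMap.toContinuousLinearMap p₀ with hp
  have hpw : ∀ w : W, p w = w := fun w => LinearMap.congr_fun hp₀ w
  set G : V → ℂ × W := fun x => (ν x, p (x - y)) with hG
  have hGd : ∀ x ∈ O, HasFDerivAt G ((fderiv ℂ ν x).prod p) x := fun x hx => by
    refine (hν.differentiableAt (hO.mem_nhds hx)).hasFDerivAt.prodMk ?_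
    have h1 : HasFDerivAt (fun x : V => x - y) (ContinuousLinearMap.id ℂ V) x :=
      (hasFDerivAt_id x).sub_const y
    have h2 := p.hasFDerivAt.comp x h1
    rw [ContinuousLinearMap.comp_id] at h2
    exact h2
  have hGo : DifferentiableOn ℂ G O := fun x hx => (hGd x hx).differentiableAt.differentiableWithinAt
  have hinj : Function.Injective (fderiv ℂ G y) := by
    rw [(hGd y hy).fderiv, injective_iff_map_eq_zero]
    intro v hv
    have h1 : L v = 0 := congrArg Prod.fst hv
    have h2 : p v = 0 := congrArg Prod.snd hv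
    have h3 := hpw ⟨v, h1⟩
    exact congrArg Subtype.val (h3.symm.trans h2)
  have hsur : Function.Surjective (fderiv ℂ G y) := by
    refine (LinearMap.injective_iff_surjective_of_finrank_eq_finrank
      (f := (fderiv ℂ G y : V →ₗ[ℂ] ℂ × W)) ?_).1 hinj
    rw [finrank_prod, finrank_self, ← hr, add_comm]
  have hc : ContinuousAt (fderiv ℂ G) y :=
    (SV.H85.continuousOn_fderiv hO hGo).continuousAt (hO.mem_nhds hy)
  have hev : ∀ᶠ x in 𝓝 y, Function.Injective (fderiv ℂ G x) :=
    hc.eventually (ContinuousLinearMap.isOpen_injective.mem_nhds hinj)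
  obtain ⟨-, lam, hl, he⟩ := bFACT V (ℂ × W) V G id y (by
    filter_upwards [hev, hO.mem_nhds hy] with x hx hxO
    refine ⟨(hGd x hxO).differentiableAt, differentiableAt_id, fun v hv => ?_⟩
    rw [(injective_iff_map_eq_zero _).1 hx v hv, map_zero]) hsur
  have hGy : G y = (0, 0) := by simp [hG, h0]
  have hly : lam (0, 0) = y := by rw [← hGy]; exact he.self_of_nhds.symm
  rw [hGy] at hl
  have hlO : ∀ᶠ b in 𝓝 ((0, 0) : ℂ × W), lam b ∈ O :=
    hl.self_of_nhds.continuousAt.eventually (by rw [hly]; exact hO.mem_nhds hy)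
  have hi : ContinuousAt (fun w : W => ((0 : ℂ), w)) 0 := by fun_prop
  obtain ⟨U, hU, hUo, hU0⟩ := _root_.eventually_nhds_iff.1 (hi.eventually (hl.and hlO))
  refine ⟨W, U, fun w => lam (0, w), hr, hUo, fun w hw => ?_, fun w hw => (hU w hw).2, ?_⟩
  · exact (DifferentiableAt.comp (f := fun w : W => ((0 : ℂ), w)) w (hU w hw).1
      (by fun_prop)).differentiableWithinAt
  · have hq : ContinuousAt (fun x : V => p (x - y)) y := by fun_prop
    have hq' : ∀ᶠ x in 𝓝 y, p (x - y) ∈ U :=
      hq.eventually (hUo.mem_nhds (by simpa using hU0))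
    filter_upwards [he, hq'] with x hx hxU hx0
    refine ⟨p (x - y), hxU, ?_⟩
    have : G x = (0, p (x - y)) := by simp [hG, hx0]
    rw [this] at hx
    exact hx.symm

end Pool.Agent.Lib.CHW
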