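import Pool.Agent.Lib.CHW.Blue
import Pool.Agent.Lib.SV.B_WEYL
import Pool.Agent.Lib.SV.B_SUB

/-! Row REM: small closed sets are removable for locally bounded holomorphic functions. -/

open scoped Topology ENNReal
open Set MeasureTheory Metric Filter Module Complex

set_option linter.unusedVariables false

noncomputable section

namespace Pool.Agent.Lib.CHW

namespace REM

open Pool.Agent.Lib.SV

variable {k : ℕ}

/-- The Cauchy-Riemann operator on a real function. -/
def db (g : E k → ℝ) (j : Fin k) (t : E k) : ℂ :=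
  (fderiv ℝ g t (Pi.single j 1) : ℝ) + I * (fderiv ℝ g t (Pi.single j I) : ℝ)

theorem db_norm (g : E k → ℝ) (j : Fin k) (t : E k) : ‖db g j t‖ ≤ 2 * ‖fderiv ℝ g t‖ := by
  have h1 : ‖fderiv ℝ g t (Pi.single j 1)‖ ≤ ‖fderiv ℝ g t‖ := by
    simpa [Pi.norm_single] using (fderiv ℝ g t).le_opNorm (Pi.single j 1)
  have h2 : ‖fderiv ℝ g t (Pi.single j I)‖ ≤ ‖fderiv ℝ g t‖ := by
    simpa [Pi.norm_single] using (fderiv ℝ g t).le_opNorm (Pi.single j I)
  refine (norm_add_le _ _).trans ?_
  rw [norm_mul, norm_I, one_mul, norm_real, norm_real]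
  linarith

theorem db_mul {a b : E k → ℝ} {t : E k} (ha : DifferentiableAt ℝ a t)
    (hb : DifferentiableAt ℝ b t) (j : Fin k) :
    db (fun x => a x * b x) j t = a t * db b j t + b t * db a j t := by
  unfold db
  rw [fderiv_fun_mul ha hb]
  simp only [ContinuousLinearMap.add_apply, ContinuousLinearMap.smul_apply, smul_eq_mul]
  push_cast
  ring

theorem db_cont {g : E k → ℝ} (hg : ContDiff ℝ 2 g) (j : Fin k) : Continuous (db g j) := by
  have h := hg.continuous_fderiv (by norm_num)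
  exact (continuous_ofReal.comp (h.clm_apply continuous_const)).add
    (continuous_const.mul (continuous_ofReal.comp (h.clm_apply continuous_const)))

theorem int_zero {H : E k → ℂ} (hH : ContDiff ℝ 1 H) (hc : HasCompactSupport H) (v : E k) :
    Integrable (fun t => fderiv ℝ H t v) ∧ ∫ t, fderiv ℝ H t v = 0 := by
  have h1 : Integrable (fun t => fderiv ℝ H t v) :=
    ((hH.continuous_fderiv one_ne_zero).clm_apply continuous_const).integrable_of_hasCompactSupport
      (hc.fderiv_apply ℝ v)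
  refine ⟨h1, ?_⟩
  have h2 := integral_mul_fderiv_eq_neg_fderiv_mul_of_integrable (μ := volume)
    (f := fun _ : E k => (1 : ℂ)) (g := H) (v := v) (by simp) (by simpa using h1)
    (by simpa using hH.continuous.integrable_of_hasCompactSupport hc)
    (fun x _ => differentiableAt_const _) (fun x _ => hH.differentiable one_ne_zero x)
  simpa using h2

theorem test {G : E k → ℂ} {p : E k → ℝ} (hp : ContDiff ℝ 2 p) (hc : HasCompactSupport p)
    (h : ∀ t, (∀ᶠ x in 𝓝 t, DifferentiableAt ℂ G x) ∨ ∀ᶠ x in 𝓝 t, p x = 0) (j : Fin k) :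
    Integrable (fun t => G t * db p j t) ∧ ∫ t, G t * db p j t = 0 := by
  set H : E k → ℂ := fun t => G t * (p t : ℂ) with hHd
  have hp1 : ContDiff ℝ 1 fun t => (p t : ℂ) := ofRealCLM.contDiff.comp (hp.of_le (by norm_num))
  have hz : ∀ t, (∀ᶠ x in 𝓝 t, p x = 0) → H =ᶠ[𝓝 t] fun _ => 0 := fun t ht =>
    ht.mono fun x hx => by simp [hHd, hx]
  have hH : ContDiff ℝ 1 H := contDiff_iff_contDiffAt.2 fun t => by
    rcases h t with ht | ht
    · exact ((H85.contDiffAt_nat ht 1).restrict_scalars ℝ).mul hp1.contDiffAt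
    · exact contDiffAt_const.congr_of_eventuallyEq (hz t ht)
  have hHc : HasCompactSupport H := by
    have h1 : HasCompactSupport fun t => (p t : ℂ) := hc.comp_left ofReal_zero
    exact h1.mul_left
  have he : ∀ t, G t * db p j t =
      fderiv ℝ H t (Pi.single j 1) + I * fderiv ℝ H t (Pi.single j I) := fun t => by
    rcases h t with ht | ht
    · have h1 := (ht.self_of_nhds.hasFDerivAt).restrictScalars ℝ
      have h2 : HasFDerivAt (fun x => (p x : ℂ)) (ofRealCLM.comp (fderiv ℝ p t)) t :=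
        ofRealCLM.hasFDerivAt.comp t ((hp.differentiable (by norm_num)) t).hasFDerivAt
      have h3 : fderiv ℝ H t = _ := (h1.mul h2).fderiv
      have h4 : fderiv ℂ G t (Pi.single j I) = I * fderiv ℂ G t (Pi.single j 1) := by
        rw [← smul_eq_mul, ← map_smul, ← Pi.single_smul, smul_eq_mul, mul_one]
      rw [h3]
      simp only [db, ContinuousLinearMap.add_apply, ContinuousLinearMap.smul_apply, smul_eq_mul,
        ContinuousLinearMap.coe_restrictScalars', ContinuousLinearMap.comp_apply, ofRealCLM_apply,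
        h4]
      linear_combination (-(p t : ℂ) * fderiv ℂ G t (Pi.single j 1)) * I_mul_I
    · have h1 : fderiv ℝ H t = 0 := by rw [(hz t ht).fderiv_eq]; simp
      have h2 : fderiv ℝ p t = 0 := by
        rw [(show p =ᶠ[𝓝 t] fun _ => 0 from ht).fderiv_eq]; simp
      simp [db, h1, h2]
  obtain ⟨a1, a2⟩ := int_zero hH hHc (Pi.single j 1)
  obtain ⟨b1, b2⟩ := int_zero hH hHc (Pi.single j I)
  simp only [he]
  refine ⟨a1.add (b1.const_mul I), ?_⟩
  rw [integral_add a1 (b1.const_mul I), integral_const_mul, a2, b2]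
  simp

theorem weak (hCUT : St_CUT) {S : Set (E k)} (hS : IsClosed S)
    (hd : dimH S + 1 < 2 * (k : ℝ≥0∞)) {G : E k → ℂ} (hG : Integrable G) {M R : ℝ}
    (hM : ∀ t, ‖G t‖ ≤ M)
    (hh : ∀ t ∈ ball (0 : E k) R, t ∉ S → ∀ᶠ x in 𝓝 t, DifferentiableAt ℂ G x)
    {g : E k → ℝ} {K : Set (E k)} (hg : ContDiff ℝ 2 g) (hK : IsCompact K)
    (hKR : K ⊆ ball 0 R) (h0 : ∀ t ∉ K, g t = 0) (j : Fin k) : ∫ t, G t * db g j t = 0 := by
  have hgc : HasCompactSupport g := HasCompactSupport.intro hK h0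
  obtain ⟨C1, hC1⟩ := hg.continuous.bounded_above_of_compact_support hgc
  obtain ⟨C2, hC2⟩ := (hg.continuous_fderiv (by norm_num)).bounded_above_of_compact_support
    (hgc.fderiv ℝ)
  have hM0 : 0 ≤ M := (norm_nonneg _).trans (hM 0)
  have hC10 : 0 ≤ C1 := (norm_nonneg _).trans (hC1 0)
  have hC20 : 0 ≤ C2 := (norm_nonneg _).trans (hC2 0)
  have hint : Integrable fun t => G t * db g j t :=
    hG.mul_bdd (c := 2 * C2) (db_cont hg j).aestronglyMeasurable
      (.of_forall fun t => (db_norm g j t).trans (by linarith [hC2 t]))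
  set c : ℝ := 2 * M * (C1 + C2) with hc
  have hc0 : 0 ≤ c := by positivity
  have key : ∀ ε > 0, ‖∫ t, G t * db g j t‖ ≤ c * (2 * ε) := fun ε hε => by
    obtain ⟨θ, hθ, hθ1, hθ0, hv, hi⟩ := hCUT k (S ∩ K) ε (hK.inter_left hS)
      (lt_of_le_of_lt (by gcongr; exact inter_subset_left) hd) hε
    obtain ⟨p1, p2⟩ := test (G := G) (p := fun x => θ x * g x) (hθ.mul hg) hgc.mul_left
      (fun t => by
        by_cases ht : t ∈ K
        · by_cases hs : t ∈ S
          · exact Or.inr ((eventually_nhdsSet_iff_forall.1 hθ0 t ⟨hs, ht⟩).mono fun x hx => by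
              simp [hx])
          · exact Or.inl (hh t (hKR ht) hs)
        · exact Or.inr (Filter.eventually_of_mem (hK.isClosed.isOpen_compl.mem_nhds ht)
            fun x hx => by simp [h0 x hx])) j
    have hpt : ∀ t, ‖G t * db g j t - G t * db (fun x => θ x * g x) j t‖ ≤
        c * ({x | θ x ≠ 1}.indicator 1 t + ‖fderiv ℝ θ t‖) := fun t => by
      rw [db_mul ((hθ.differentiable (by norm_num)) t) ((hg.differentiable (by norm_num)) t)]
      have e1 : G t * db g j t - G t * (θ t * db g j t + g t * db θ j t) =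
          G t * (((1 - θ t : ℝ) : ℂ) * db g j t - g t * db θ j t) := by push_cast; ring
      have e2 : ‖((1 - θ t : ℝ) : ℂ)‖ ≤ {x | θ x ≠ 1}.indicator 1 t := by
        rw [norm_real, Real.norm_of_nonneg (by linarith [(hθ1 t).2])]
        by_cases h1 : θ t = 1
        · simp [h1]
        · rw [indicator_of_mem (show t ∈ {x | θ x ≠ 1} from h1)]
          simp only [Pi.one_apply]
          linarith [(hθ1 t).1]
      have e3 : (0 : ℝ) ≤ {x | θ x ≠ 1}.indicator 1 t := (norm_nonneg _).trans e2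
      have e4 : ‖((1 - θ t : ℝ) : ℂ) * db g j t‖ ≤ {x | θ x ≠ 1}.indicator 1 t * (2 * C2) := by
        rw [norm_mul]
        exact mul_le_mul e2 ((db_norm g j t).trans (by linarith [hC2 t])) (norm_nonneg _) e3
      have e5 : ‖(g t : ℂ) * db θ j t‖ ≤ C1 * (2 * ‖fderiv ℝ θ t‖) := by
        rw [norm_mul, norm_real]
        exact mul_le_mul (hC1 t) (db_norm θ j t) (norm_nonneg _) hC10
      rw [e1, norm_mul]
      refine (mul_le_mul (hM t) ((norm_sub_le _ _).trans (add_le_add e4 e5)) (norm_nonneg _)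
        hM0).trans ?_
      have e6 := norm_nonneg (fderiv ℝ θ t)
      have e7 := mul_nonneg (mul_nonneg hM0 hC10) e3
      have e8 := mul_nonneg (mul_nonneg hM0 hC20) e6
      rw [hc]
      nlinarith
    have hm : Measurable fun t => ‖fderiv ℝ θ t‖ₑ :=
      (hθ.continuous_fderiv (by norm_num)).enorm.measurable
    have h1 : ‖∫ t, G t * db g j t‖ₑ ≤ ENNReal.ofReal (c * (2 * ε)) := by
      calc ‖∫ t, G t * db g j t‖ₑ
          = ‖∫ t, (G t * db g j t - G t * db (fun x => θ x * g x) j t)‖ₑ := by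
            rw [integral_sub hint p1, p2, sub_zero]
        _ ≤ ∫⁻ t, ‖G t * db g j t - G t * db (fun x => θ x * g x) j t‖ₑ :=
            enorm_integral_le_lintegral_enorm _
        _ ≤ ∫⁻ t, ENNReal.ofReal c * ({x | θ x ≠ 1}.indicator 1 t + ‖fderiv ℝ θ t‖ₑ) := by
            refine lintegral_mono fun t => ?_
            rw [← ofReal_norm_eq_enorm]
            refine (ENNReal.ofReal_le_ofReal (hpt t)).trans (le_of_eq ?_)
            have h3 : (0 : ℝ) ≤ {x | θ x ≠ 1}.indicator 1 t :=
              indicator_nonneg (fun _ _ => zero_le_one) t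
            rw [ENNReal.ofReal_mul hc0, ENNReal.ofReal_add h3 (norm_nonneg _),
              ofReal_norm_eq_enorm]
            by_cases h2 : t ∈ {x | θ x ≠ 1}
            · simp [indicator_of_mem h2]
            · simp [indicator_of_notMem h2]
        _ = ENNReal.ofReal c * 
              ((∫⁻ t, {x | θ x ≠ 1}.indicator 1 t) + ∫⁻ t, ‖fderiv ℝ θ t‖ₑ) := by
            rw [lintegral_const_mul' _ _ ENNReal.ofReal_ne_top, lintegral_add_right _ hm]
        _ ≤ ENNReal.ofReal c * (ENNReal.ofReal ε + ENNReal.ofReal ε) := by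
            gcongr
            exact (lintegral_indicator_one_le _).trans hv
        _ = ENNReal.ofReal (c * (2 * ε)) := by
            rw [← ENNReal.ofReal_add hε.le hε.le, ← ENNReal.ofReal_mul hc0, two_mul]
    rw [← ofReal_norm_eq_enorm] at h1
    exact (ENNReal.ofReal_le_ofReal_iff (by positivity)).1 h1
  refine norm_le_zero_iff.1 (le_of_forall_pos_le_add fun ε hε => ?_)
  refine (key (ε / (2 * (c + 1))) (by positivity)).trans ?_
  rw [zero_add, show c * (2 * (ε / (2 * (c + 1)))) = ε * (c / (c + 1)) by field_simp]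
  exact mul_le_of_le_one_right hε.le ((div_le_one (by positivity)).2 (by linarith))

theorem onBall (hCUT : St_CUT) {S : Set (E k)} (hS : IsClosed S)
    (hd : dimH S + 1 < 2 * (k : ℝ≥0∞)) {f : E k → ℂ} (hf : DifferentiableOn ℂ f Sᶜ)
    (hb : ∀ R : ℝ, ∃ M : ℝ, ∀ x ∉ S, ‖x‖ ≤ R → ‖f x‖ ≤ M) {r : ℝ} (hr : 0 < r) :
    ∃ H : E k → ℂ, DifferentiableOn ℂ H (ball 0 r) ∧
      ∀ᵐ x, x ∈ ball (0 : E k) r → H x = Sᶜ.indicator f x := by
  obtain ⟨M, hM⟩ := hb (4 * r)
  set U : Set (E k) := ball 0 (4 * r) ∩ Sᶜ with hU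
  have hUo : IsOpen U := isOpen_ball.inter hS.isOpen_compl
  have hbd : ∀ t, ‖U.indicator f t‖ ≤ max M 0 := fun t => by
    by_cases ht : t ∈ U
    · rw [indicator_of_mem ht]
      exact (hM t ht.2 (mem_ball_zero_iff.1 ht.1).le).trans (le_max_left _ _)
    · rw [indicator_of_notMem ht, norm_zero]
      exact le_max_right _ _
  have hint : Integrable (U.indicator f) := by
    rw [integrable_indicator_iff hUo.measurableSet]
    refine IntegrableOn.of_bound ((measure_mono inter_subset_left).trans_lt measure_ball_lt_top)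
      ((hf.continuousOn.mono inter_subset_right).aestronglyMeasurable hUo.measurableSet) M ?_
    exact (ae_restrict_iff' hUo.measurableSet).2 (.of_forall fun t ht =>
      hM t ht.2 (mem_ball_zero_iff.1 ht.1).le)
  obtain ⟨H, h1, h2⟩ := WEYL.euclid stSUB hint 0 hr fun g K hg hK hKR h0 j =>
    weak hCUT hS hd hint hbd (R := 4 * r) (fun t ht hs => by
      have hm : U ∈ 𝓝 t := hUo.mem_nhds ⟨ht, hs⟩
      filter_upwards [hm] with x hx
      refine (hf.differentiableAt (hS.isOpen_compl.mem_nhds hx.2)).congr_of_eventuallyEq ?_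
      filter_upwards [hUo.mem_nhds hx] with y hy using indicator_of_mem hy f) hg hK hKR h0 j
  refine ⟨H, h1, h2.mono fun x hx hxr => (hx hxr).trans ?_⟩
  have hx4 : x ∈ ball (0 : E k) (4 * r) := ball_subset_ball (by linarith) hxr
  by_cases hs : x ∈ S
  · rw [indicator_of_notMem (show x ∉ U from fun h => h.2 hs),
      indicator_of_notMem (show x ∉ Sᶜ from fun h => h hs)]
  · rw [indicator_of_mem (show x ∈ U from ⟨hx4, hs⟩), indicator_of_mem (show x ∈ Sᶜ from hs)]

theorem coord (hCUT : St_CUT) {S : Set (E k)} (hS : IsClosed S)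
    (hd : dimH S + 1 < 2 * (k : ℝ≥0∞)) {f : E k → ℂ} (hf : DifferentiableOn ℂ f Sᶜ)
    (hb : ∀ R : ℝ, ∃ M : ℝ, ∀ x ∉ S, ‖x‖ ≤ R → ‖f x‖ ≤ M) :
    ∃ g : E k → ℂ, Differentiable ℂ g ∧ EqOn g f Sᶜ := by
  choose! H h1 h2 using fun r (hr : 0 < r) => onBall hCUT hS hd hf hb hr
  have hcons : ∀ r > 0, ∀ r' > 0, EqOn (H r) (H r') (ball 0 r ∩ ball 0 r') := fun r hr r' hr' => by
    have ho : IsOpen (ball (0 : E k) r ∩ ball 0 r') := isOpen_ball.inter isOpen_ball
    refine Measure.eqOn_open_of_ae_eq (μ := volume) ?_ ho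
      ((h1 r hr).continuousOn.mono inter_subset_left)
      ((h1 r' hr').continuousOn.mono inter_subset_right)
    refine (ae_restrict_iff' ho.measurableSet).2 ?_
    filter_upwards [h2 r hr, h2 r' hr'] with x a b hx using (a hx.1).trans (b hx.2).symm
  have hmem : ∀ x : E k, x ∈ ball (0 : E k) (‖x‖ + 1) := fun x =>
    mem_ball_zero_iff.2 (lt_add_one _)
  refine ⟨fun x => H (‖x‖ + 1) x, fun x => ?_, fun x hx => ?_⟩
  · refine ((h1 (‖x‖ + 1) (by positivity)).differentiableAt
      (isOpen_ball.mem_nhds (hmem x))).congr_of_eventuallyEq ?_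
    filter_upwards [isOpen_ball.mem_nhds (hmem x)] with y hy
    exact hcons _ (by positivity) _ (by positivity) ⟨hmem y, hy⟩
  · have ho : IsOpen (ball (0 : E k) (‖x‖ + 1) ∩ Sᶜ) := isOpen_ball.inter hS.isOpen_compl
    refine Measure.eqOn_open_of_ae_eq (μ := volume) ?_ ho
      ((h1 _ (by positivity)).continuousOn.mono inter_subset_left)
      (hf.continuousOn.mono inter_subset_right) ⟨hmem x, hx⟩
    refine (ae_restrict_iff' ho.measurableSet).2 ?_
    filter_upwards [h2 (‖x‖ + 1) (by positivity)] with y a hy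
    exact (a hy.1).trans (indicator_of_mem hy.2 f)

end REM

theorem bREM (hCUT : St_CUT) : St_REM := by
  intro F _ _ _ S f hS hd hf hb
  have e : F ≃L[ℂ] (Fin (finrank ℂ F) → ℂ) := ContinuousLinearEquiv.ofFinrankEq (by simp)
  have hc : ∀ y, y ∉ e '' S → e.symm y ∉ S := fun y hy h => hy ⟨_, h, e.apply_symm_apply y⟩
  obtain ⟨g, h1, h2⟩ := REM.coord hCUT (S := e '' S) (f := f ∘ e.symm)
    (e.toHomeomorph.isClosed_image.2 hS) (by rwa [e.dimH_image])
    (hf.comp e.symm.differentiable.differentiableOn fun y hy => hc y hy) fun R => by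
      obtain ⟨M, hM⟩ := hb (‖(e.symm : (Fin (finrank ℂ F) → ℂ) →L[ℂ] F)‖ * R)
      exact ⟨M, fun x hx hR => hM _ (hc x hx)
        (((e.symm : (Fin (finrank ℂ F) → ℂ) →L[ℂ] F).le_opNorm x).trans (by gcongr))⟩
  refine ⟨g ∘ e, h1.comp e.differentiable, fun x hx => ?_⟩
  have h3 : e x ∈ (e '' S)ᶜ := fun ⟨y, hy, h⟩ => hx (e.injective h ▸ hy)
  simpa using h2 h3

end Pool.Agent.Lib.CHW
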