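import Pool.Agent.Lib.CHW.Blue

/-! Project CHW: the product over the branches of a multivalued function. -/

open scoped Topology ENNReal Classical
open Set MeasureTheory Metric Filter Module Polynomial

set_option linter.unusedVariables false
set_option linter.unusedSectionVars false

noncomputable section

namespace Pool.Agent.Lib.CHW

namespace SYM

variable {F : Type} [NormedAddCommGroup F] [NormedSpace ℂ F]

/-- Near the point the values are given by pairwise different holomorphic branches. -/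
def Good (L : F → Set ℂ) : Set F := {b | ∃ (m : ℕ) (lam : Fin m → F → ℂ), ∀ᶠ c in 𝓝 b,
  (∀ i, DifferentiableAt ℂ (lam i) c) ∧ L c = range (fun i => lam i c) ∧
    Function.Injective fun i => lam i c}

theorem good_open (L : F → Set ℂ) : IsOpen (Good L) := by
  rw [isOpen_iff_mem_nhds]
  rintro b ⟨m, lam, h⟩
  filter_upwards [h.eventually_nhds] with c hc using ⟨m, lam, hc⟩

theorem sub_branch {L : F → Set ℂ} {b : F} {ε : ℝ} {m : ℕ} {lam : Fin m → F → ℂ}
    (h : ∀ c ∈ ball b ε, L c = range fun i => lam i c) :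
    ∃ (m' : ℕ) (j : Fin m' → Fin m), (∀ c ∈ ball b ε, L c = range fun i => lam (j i) c) ∧
      ∀ i i', i ≠ i' → ∃ c ∈ ball b ε, lam (j i) c ≠ lam (j i') c := by
  let r : Setoid (Fin m) := ⟨fun i i' => ∀ c ∈ ball b ε, lam i c = lam i' c,
    fun i c _ => rfl, fun h c hc => (h c hc).symm, fun h h' c hc => (h c hc).trans (h' c hc)⟩
  let q := Quotient r
  have : Finite q := Quotient.finite r
  obtain ⟨m', ⟨ψ⟩⟩ := Finite.exists_equiv_fin q
  refine ⟨m', fun i => (ψ.symm i).out, fun c hc => ?_, fun i i' hi => ?_⟩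
  · rw [h c hc]
    refine Subset.antisymm ?_ ?_
    · rintro _ ⟨i, rfl⟩
      refine ⟨ψ (Quotient.mk r i), ?_⟩
      simp only [Equiv.symm_apply_apply]
      exact Quotient.mk_out (s := r) i c hc
    · rintro _ ⟨i, rfl⟩
      exact ⟨_, rfl⟩
  · by_contra h0
    push Not at h0
    have h1 : Quotient.mk r (ψ.symm i).out = Quotient.mk r (ψ.symm i').out := Quotient.sound h0
    rw [Quotient.out_eq, Quotient.out_eq] at h1
    exact hi (ψ.symm.injective h1)

theorem dim_bad [FiniteDimensional ℂ F] (hZ : St_ZER) {L : F → Set ℂ} {S : Set F}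
    (hS : dimH S + 2 ≤ 2 * (finrank ℂ F : ℝ≥0∞))
    (hL : ∀ b ∉ S, ∃ ε > 0, ∃ (m : ℕ) (lam : Fin m → F → ℂ),
      (∀ i, DifferentiableOn ℂ (lam i) (ball b ε)) ∧
        ∀ c ∈ ball b ε, L c = range fun i => lam i c) :
    dimH (Good L)ᶜ + 2 ≤ 2 * (finrank ℂ F : ℝ≥0∞) := by
  have hk : finrank ℂ F ≠ 0 := by
    intro h0
    rw [h0] at hS
    simp at hS
  have : Nontrivial F := Module.nontrivial_of_finrank_pos (R := ℂ) (Nat.pos_of_ne_zero hk)
  set d : ℝ≥0∞ := 2 * (finrank ℂ F : ℝ≥0∞) - 2 with hd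
  have h2 : (2 : ℝ≥0∞) ≤ 2 * (finrank ℂ F : ℝ≥0∞) := le_add_self.trans hS
  have key : ∀ x : ℝ≥0∞, x + 2 ≤ 2 * (finrank ℂ F : ℝ≥0∞) ↔ x ≤ d := fun x =>
    (ENNReal.le_sub_iff_add_le_right (by simp) h2).symm
  rw [key] at hS ⊢
  have h1 : ∀ b ∈ Sᶜ, ∃ t ∈ 𝓝 b, dimH (t ∩ (Good L)ᶜ) ≤ d := by
    intro b hb
    obtain ⟨ε, hε, m, lam, hh, hr⟩ := hL b hb
    obtain ⟨m', j, hr', hne⟩ := sub_branch hr
    refine ⟨ball b ε, ball_mem_nhds b hε, ?_⟩
    have h3 : ball b ε ∩ (Good L)ᶜ ⊆ ⋃ p : {p : Fin m' × Fin m' // p.1 ≠ p.2},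
        {y ∈ ball b ε | lam (j p.1.1) y - lam (j p.1.2) y = 0} := by
      rintro c ⟨hc, hg⟩
      by_contra h4
      refine hg ⟨m', fun i => lam (j i), ?_⟩
      have h5 : ∀ᶠ y in 𝓝 c, ∀ p : {p : Fin m' × Fin m' // p.1 ≠ p.2},
          lam (j p.1.1) y - lam (j p.1.2) y ≠ 0 := by
        refine eventually_all.2 fun p => ContinuousAt.eventually_ne ?_ fun h6 => ?_
        · exact (((hh _).sub (hh _)).differentiableAt (isOpen_ball.mem_nhds hc)).continuousAt
        · exact h4 (mem_iUnion.2 ⟨p, hc, h6⟩)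
      filter_upwards [h5, isOpen_ball.mem_nhds hc] with y h6 hy
      refine ⟨fun i => (hh _).differentiableAt (isOpen_ball.mem_nhds hy), hr' y hy,
        fun i i' h7 => ?_⟩
      by_contra h8
      exact h6 ⟨(i, i'), h8⟩ (sub_eq_zero.2 h7)
    refine (dimH_mono h3).trans ?_
    rw [dimH_iUnion]
    refine iSup_le fun p => (key _).1 ?_
    obtain ⟨c, hc, h4⟩ := hne p.1.1 p.1.2 p.2
    exact hZ F (ball b ε) _ isOpen_ball (convex_ball b ε).isPreconnected ((hh _).sub (hh _))
      ⟨c, hc, sub_ne_zero.2 h4⟩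
  choose! t ht1 ht2 using h1
  obtain ⟨s, hs1, hs2, hs3⟩ := TopologicalSpace.countable_cover_nhdsWithin
    (f := t) (s := Sᶜ) fun b hb => mem_nhdsWithin_of_mem_nhds (ht1 b hb)
  have h4 : (Good L)ᶜ ⊆ S ∪ ⋃ b ∈ s, (t b ∩ (Good L)ᶜ) := by
    intro c hc
    by_cases h5 : c ∈ S
    · exact Or.inl h5
    · obtain ⟨b, hb, h6⟩ := mem_iUnion₂.1 (hs3 h5)
      exact Or.inr (mem_iUnion₂.2 ⟨b, hb, h6, hc⟩)
  refine (dimH_mono h4).trans ?_
  rw [dimH_union, dimH_bUnion hs2]
  exact max_le hS (iSup₂_le fun b hb => ht2 b (hs1 hb))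

/-- The values as a finite set. -/
def fs (L : F → Set ℂ) (b : F) : Finset ℂ := if h : (L b).Finite then h.toFinset else ∅

theorem fs_eq {L : F → Set ℂ} {c : F} {m : ℕ} {v : Fin m → ℂ} (h : L c = range v) :
    fs L c = Finset.univ.image v := by
  have h1 : (L c).Finite := h ▸ finite_range v
  rw [fs, dif_pos h1]
  ext x
  simp [h]

theorem mem_fs {L : F → Set ℂ} {c : F} (hc : c ∈ Good L) {x : ℂ} : x ∈ fs L c ↔ x ∈ L c := by
  obtain ⟨m, lam, h⟩ := hc
  have h1 := h.self_of_nhds.2.1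
  rw [fs_eq h1, h1]
  simp

theorem card_const {L : F → Set ℂ} (hc : IsPreconnected (Good L)) :
    ∃ e, ∀ b ∈ Good L, (fs L b).card = e := by
  have h1 : ContinuousOn (fun b => (fs L b).card) (Good L) := by
    rintro b ⟨m, lam, h⟩
    have h2 : (fun b => (fs L b).card) =ᶠ[𝓝 b] fun _ => m := by
      filter_upwards [h] with c hc
      rw [fs_eq hc.2.1, Finset.card_image_of_injective _ hc.2.2]
      simp
    exact (continuousAt_const.congr h2.symm).continuousWithinAt
  by_cases h3 : (Good L).Nonempty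
  · obtain ⟨b, hb⟩ := h3
    exact ⟨_, fun c hc' => hc.constant h1 hc' hb⟩
  · exact ⟨0, fun b hb => absurd ⟨b, hb⟩ h3⟩

theorem prod_hol (L : F → Set ℂ) (x : ℂ) :
    DifferentiableOn ℂ (fun b => ∏ y ∈ fs L b, (x - y)) (Good L) := by
  rintro b ⟨m, lam, h⟩
  have h2 : (fun b => ∏ y ∈ fs L b, (x - y)) =ᶠ[𝓝 b] fun c => ∏ i, (x - lam i c) := by
    filter_upwards [h] with c hc
    rw [fs_eq hc.2.1, Finset.prod_image fun i _ i' _ h => hc.2.2 h]
  refine (DifferentiableAt.congr_of_eventuallyEq ?_ h2).differentiableWithinAt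
  exact (HasFDerivAt.finsetProd (g := fun i c => x - lam i c) fun i _ =>
    ((differentiableAt_const x).sub (h.self_of_nhds.1 i)).hasFDerivAt).differentiableAt

theorem lagr (s : Finset ℂ) (e : ℕ) (he : s.card = e) (x : ℂ) :
    ∏ y ∈ s, (x - y) = ∑ j ∈ Finset.range (e + 1),
      (∏ y ∈ s, ((j : ℂ) - y)) * (Lagrange.basis (Finset.range (e + 1)) (fun j => (j : ℂ)) j).eval x := by
  have h1 : (∏ y ∈ s, (X - C y) : ℂ[X]).degree < (Finset.range (e + 1)).card := by
    rw [Finset.card_range, degree_prod]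
    simp only [degree_X_sub_C, Finset.sum_const, he, nsmul_eq_mul, mul_one]
    exact_mod_cast Nat.lt_succ_self e
  have h2 := Lagrange.eq_interpolate (v := fun j : ℕ => (j : ℂ))
    (fun a _ b _ h => Nat.cast_injective h) h1
  have h3 := congrArg (eval x) h2
  rw [Lagrange.interpolate_apply, eval_finsetSum] at h3
  simpa only [eval_prod, eval_sub, eval_X, eval_C, eval_mul] using h3

end SYM

open SYM in
theorem bSYM (hZ : St_ZER) (hR : St_REM) (hC : St_CON) : St_SYM := by
  intro F _ _ _ L S C hS hL hb hs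
  have h1 := dim_bad hZ hS hL
  have h2 : dimH (Good L)ᶜ + 1 < 2 * (finrank ℂ F : ℝ≥0∞) := by
    refine lt_of_lt_of_le ?_ h1
    have h3 : dimH (Good L)ᶜ ≠ ⊤ := by
      intro h4
      rw [h4, top_add, top_le_iff] at h1
      exact ENNReal.mul_ne_top (by simp) (by simp) h1
    exact ENNReal.add_lt_add_left h3 (by norm_num)
  have hcl : IsClosed (Good L)ᶜ := (good_open L).isClosed_compl
  obtain ⟨hpc, hde⟩ := hC F _ hcl h2
  rw [compl_compl] at hpc hde
  obtain ⟨e, he⟩ := card_const hpc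
  have h4 : ∀ x : ℂ, ∃ g : F → ℂ, Differentiable ℂ g ∧
      EqOn g (fun b => ∏ y ∈ fs L b, (x - y)) (Good L) := by
    intro x
    have h5 := hR F _ (fun b => ∏ y ∈ fs L b, (x - y)) hcl h2
      (by rw [compl_compl]; exact prod_hol L x) (fun R => ⟨(‖x‖ + |C| * |R|) ^ e, fun b hb' hbR => by
        have hg : b ∈ Good L := not_not.1 hb'
        rw [norm_prod, ← he b hg, ← Finset.prod_const]
        refine Finset.prod_le_prod (fun y _ => norm_nonneg _) fun y hy => ?_
        refine (norm_sub_le x y).trans (add_le_add le_rfl ((hb b y ((mem_fs hg).1 hy)).trans ?_))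
        exact mul_le_mul (le_abs_self C) (hbR.trans (le_abs_self R)) (norm_nonneg _)
          (abs_nonneg _)⟩)
    rwa [compl_compl] at h5
  choose g hg1 hg2 using h4
  set P : ℂ × F → ℂ := fun p => ∑ j ∈ Finset.range (e + 1),
    g j p.2 * (Lagrange.basis (Finset.range (e + 1)) (fun j => (j : ℂ)) j).eval p.1 with hP
  have hPd : Differentiable ℂ P := Differentiable.fun_sum fun j _ =>
    ((hg1 j).comp differentiable_snd).mul ((Polynomial.differentiable
      (Lagrange.basis (Finset.range (e + 1)) (fun j => (j : ℂ)) j)).comp differentiable_fst)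
  have hPe : ∀ b ∈ Good L, ∀ x, P (x, b) = ∏ y ∈ fs L b, (x - y) := fun b hb' x => by
    rw [lagr (fs L b) e (he b hb') x]
    exact Finset.sum_congr rfl fun j _ => by rw [hg2 j hb']
  have hom : ∀ t : ℂ, t ≠ 0 → ∀ p : ℂ × F, P (t • p) = t ^ e * P p := by
    rintro t ht ⟨x, b⟩
    have h5 : Dense (Good L ∩ (fun c : F => t • c) ⁻¹' Good L) :=
      hde.inter_of_isOpen_left (hde.preimage (isOpenMap_smul₀ ht)) (good_open L)
    have h6 : (fun c : F => P (t • (x, c))) = fun c => t ^ e * P (x, c) := by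
      refine Continuous.ext_on h5 ?_ ?_ ?_
      · exact hPd.continuous.comp (by fun_prop)
      · exact continuous_const.mul (hPd.continuous.comp (by fun_prop))
      · rintro c ⟨hc1, hc2⟩
        have h7 : fs L (t • c) = (fs L c).image fun y => t * y := by
          ext y
          rw [mem_fs hc2, Finset.mem_image]
          constructor
          · intro hy
            have h8 := hs t⁻¹ _ y hy
            rw [inv_smul_smul₀ ht] at h8
            exact ⟨_, (mem_fs hc1).2 h8, mul_inv_cancel_left₀ ht y⟩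
          · rintro ⟨y', hy', rfl⟩
            exact hs t c y' ((mem_fs hc1).1 hy')
        show P (t * x, t • c) = t ^ e * P (x, c)
        rw [hPe _ hc2, hPe _ hc1, h7,
          Finset.prod_image fun a _ b _ h => mul_left_cancel₀ ht h, ← he c hc1,
          ← Finset.prod_const, ← Finset.prod_mul_distrib]
        exact Finset.prod_congr rfl fun y _ => by ring
    exact congrFun h6 b
  refine ⟨e, P, ⟨hPd, fun t p => ?_, ?_⟩, Good L, good_open L, hde, fun b hb' x hx => ?_⟩
  · have h6 : (fun t : ℂ => P (t • p)) = fun t => t ^ e * P p := by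
      refine Continuous.ext_on (dense_compl_singleton (0 : ℂ)) ?_ (by fun_prop) fun t ht => hom t ht p
      exact hPd.continuous.comp (by fun_prop)
    exact congrFun h6 t
  · have h5 : ∀ b, ‖P (1, b) - 1‖ ≤ Real.exp (e * (|C| * ‖b‖)) - 1 := by
      intro b
      refine (isClosed_le (f := fun b => ‖P (1, b) - 1‖)
        (g := fun b => Real.exp (e * (|C| * ‖b‖)) - 1) ?_ (by fun_prop)).closure_subset_iff.2
        (fun c hc => ?_) (hde b)
      · exact ((hPd.continuous.comp (by fun_prop)).sub continuous_const).norm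
      · have h6 := Finset.norm_prod_one_add_sub_one_le (fs L c) fun y : ℂ => -y
        simp only [← sub_eq_add_neg, norm_neg] at h6
        show ‖P (1, c) - 1‖ ≤ _
        rw [hPe c hc]
        refine h6.trans (sub_le_sub_right (Real.exp_le_exp.2 ?_) 1)
        rw [← he c hc, ← nsmul_eq_mul, ← Finset.sum_const]
        exact Finset.sum_le_sum fun y hy => (hb c y ((mem_fs hc).1 hy)).trans
          (mul_le_mul_of_nonneg_right (le_abs_self C) (norm_nonneg _))
    have h6 := h5 0
    simp only [norm_zero, mul_zero, Real.exp_zero, sub_self, norm_le_zero_iff] at h6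
    exact sub_eq_zero.1 h6
  · rw [hPe b hb']
    exact Finset.prod_eq_zero ((mem_fs hb').2 hx) (sub_self x)

end Pool.Agent.Lib.CHW
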