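import Pool.Agent.Lib.CHW.B_SARD

/-! The zero set of a holomorphic function is small. -/

open scoped Topology ENNReal
open Set MeasureTheory Metric Filter Module

noncomputable section

namespace Pool.Agent.Lib.CHW

theorem bZER (hH : St_HYP) (hP : St_PAR) : St_ZER := by
  intro V _ _ _ _ O μ hO hc hμ hne
  have : ProperSpace V := FiniteDimensional.proper ℂ V
  obtain ⟨ν, hν, hz⟩ := hH V O μ hO hc hμ hne
  obtain ⟨r, hr⟩ : ∃ r, finrank ℂ V = r + 1 :=
    Nat.exists_eq_succ_of_ne_zero (finrank_pos (R := ℂ) (M := V)).ne'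
  have h1 : ∀ k, dimH {y ∈ O | ν k y = 0 ∧ fderiv ℂ (ν k) y ≠ 0} ≤ 2 * (r : ℝ≥0∞) := by
    intro k
    rw [← image_id {y ∈ O | ν k y = 0 ∧ fderiv ℂ (ν k) y ≠ 0}]
    refine SARD.loc _ id _ fun y hy => ?_
    obtain ⟨W, U, τ, hW, hU, hτ, -, he⟩ := hP V O (ν k) y hO hy.1 (hν k) hy.2.1 hy.2.2
    refine ⟨_, he, ?_⟩
    have hWr : finrank ℂ W = r := by omega
    calc dimH (id '' ({y ∈ O | ν k y = 0 ∧ fderiv ℂ (ν k) y ≠ 0} ∩
          {x | ν k x = 0 → x ∈ τ '' U})) ≤ dimH (τ '' U) := by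
          rw [image_id]
          exact dimH_mono fun x hx => hx.2 hx.1.2.1
      _ ≤ dimH U := by
          refine dimH_image_le_of_locally_lipschitzOn fun w hw => ?_
          have h2 : ContDiffAt ℂ (1 : ℕ) τ w := SV.H85.contDiffAt_nat
            (by filter_upwards [hU.mem_nhds hw] with x hx using hτ.differentiableAt (hU.mem_nhds hx)) 1
          obtain ⟨C, t, ht, hC⟩ := ContDiffAt.exists_lipschitzOnWith (by simpa using h2)
          exact ⟨C, t, mem_nhdsWithin_of_mem_nhds ht, hC⟩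
      _ ≤ dimH (univ : Set W) := dimH_mono (subset_univ _)
      _ = 2 * (r : ℝ≥0∞) := by
          rw [Real.dimH_univ_eq_finrank, finrank_real_of_complex, hWr]
          push_cast
          rfl
  have h2 : dimH {y ∈ O | μ y = 0} ≤ 2 * (r : ℝ≥0∞) := by
    refine (dimH_mono (t := ⋃ k, {y ∈ O | ν k y = 0 ∧ fderiv ℂ (ν k) y ≠ 0}) fun y hy => ?_).trans ?_
    · obtain ⟨k, hk⟩ := hz y hy.1 hy.2
      exact mem_iUnion.2 ⟨k, hy.1, hk⟩
    · rw [dimH_iUnion]
      exact iSup_le h1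
  rw [hr]
  push_cast
  rw [mul_add, mul_one]
  exact add_le_add_left h2 2

end Pool.Agent.Lib.CHW
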