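import Pool.Agent.Lib.CHW.B_CHA
import Pool.Agent.Lib.CHW.B_CON
import Pool.Agent.Lib.CHW.B_CRIT
import Pool.Agent.Lib.CHW.B_CRK
import Pool.Agent.Lib.CHW.B_CUT
import Pool.Agent.Lib.CHW.B_HYP
import Pool.Agent.Lib.CHW.B_LOC
import Pool.Agent.Lib.CHW.B_MIN
import Pool.Agent.Lib.CHW.B_ONE
import Pool.Agent.Lib.CHW.B_ONTO
import Pool.Agent.Lib.CHW.B_PAR
import Pool.Agent.Lib.CHW.B_REM
import Pool.Agent.Lib.CHW.B_SYM
import Pool.Agent.Lib.CHW.B_ZER

/-! Project CHW: all blocks glued. -/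

namespace Pool.Agent.Lib.CHW

theorem sard : St_SARD := bSARD bHYP bPAR bMIN (bCRK bFACT)

theorem crit : St_CRIT := bCRIT sard

theorem rem : St_REM := bREM bCUT

theorem con : St_CON := bCON rem

theorem zer : St_ZER := bZER bHYP bPAR

theorem onto : St_ONTO := bONTO crit con bFACT

theorem one : St_ONE := bONE crit (bLOC bFACT onto) (bSYM zer rem con)

theorem cha : St_CHA := bCHA one

end Pool.Agent.Lib.CHW
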