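import Pool.Agent.Lib.CHW.Blue

/-! Project CHW: induction on the number of charts. -/

open scoped Topology ENNReal
open Set MeasureTheory Metric Filter Module

set_option linter.unusedVariables false

noncomputable section

namespace Pool.Agent.Lib.CHW

section mon

variable {F : Type} [NormedAddCommGroup F] [NormedSpace ℂ F]

theorem Mon.unit : Mon (F := F) 0 fun _ => 1 :=
  ⟨differentiable_const _, fun t p => by simp, rfl⟩

theorem Mon.mul {e e' : ℕ} {P Q : ℂ × F → ℂ} (h : Mon e P) (h' : Mon e' Q) :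
    Mon (e + e') fun p => P p * Q p :=
  ⟨h.hol.mul h'.hol, fun t p => by rw [h.hom, h'.hom, pow_add]; ring, by rw [h.one, h'.one, one_mul]⟩

theorem Mon.prod {ι : Type} (s : Finset ι) {e : ι → ℕ} {P : ι → ℂ × F → ℂ}
    (h : ∀ i ∈ s, Mon (e i) (P i)) : Mon (∑ i ∈ s, e i) fun p => ∏ i ∈ s, P i p := by
  classical
  induction s using Finset.induction_on with
  | empty => simpa using Mon.unit
  | insert i s hi ih =>
    have h1 := (h i (Finset.mem_insert_self i s)).mul
      (ih fun j hj => h j (Finset.mem_insert_of_mem hj))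
    simpa only [Finset.sum_insert hi, Finset.prod_insert hi] using h1

theorem Mon.pow {e : ℕ} {P : ℂ × F → ℂ} (h : Mon e P) (k : ℕ) : Mon (e * k) fun p => P p ^ k :=
  ⟨h.hol.pow k, fun t p => by rw [h.hom, mul_pow, pow_mul], by rw [h.one, one_pow]⟩

theorem Mon.axis {e : ℕ} {P : ℂ × F → ℂ} (h : Mon e P) (x : ℂ) : P (x, 0) = x ^ e := by
  have h1 := h.hom x (1, 0)
  rw [h.one, mul_one] at h1
  simpa using h1

end mon

theorem bCHA (hONE : St_ONE) : St_CHA := by
  intro V F _ _ _ _ _ _ A _ O K h u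
  obtain ⟨N, hN⟩ : ∃ N, Nat.card A ≤ N := ⟨_, le_rfl⟩
  induction N generalizing A with
  | zero =>
    intro _ _
    have : IsEmpty A := by
      rcases Nat.card_eq_zero.1 (Nat.le_zero.1 hN) with h0 | h0
      · exact h0
      · exact absurd h0 (not_infinite_iff_finite.2 inferInstance)
    exact ⟨0, _, Mon.unit, fun a => isEmptyElim a⟩
  | succ N ih =>
    intro h1 h2
    by_cases hne : ∃ a, (O a).Nonempty
    swap
    · exact ⟨0, _, Mon.unit, fun a z hz => absurd ⟨a, z, hz⟩ hne⟩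
    have hD : Dat O K fun a z => (h a z, u a z) :=
      ⟨fun a => (h1 a).1, fun a => (h1 a).2.2.1, fun a => (h1 a).2.2.2.1,
        fun a => (h1 a).2.2.2.2.1.prodMk (h1 a).2.2.2.2.2.1, fun a z hz => by
          obtain ⟨b, ⟨w, hw, t, ht⟩, -⟩ := h2 a z hz
          exact ⟨b, w, hw, t, ht⟩⟩
    obtain ⟨e, P, hP, a₀, z₀, hz₀, hv⟩ :=
      hONE V F A O K h u hD (fun a => (h1 a).2.2.2.2.2.2) hne
    have hid : ∀ a, ∀ z ∈ O a, (∀ᶠ y in 𝓝 z, P (h a y, u a y) = 0) →
        ∀ y ∈ O a, P (h a y, u a y) = 0 := fun a z hz hv y hy =>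
      SV.H85.eqOn_zero_of_preconnected (f := fun y => P (h a y, u a y)) (h1 a).1 (h1 a).2.1
        (hP.hol.comp_differentiableOn (hD.hol a)) hz hv hy
    let A' := {a : A // ¬ ∀ y ∈ O a, P (h a y, u a y) = 0}
    have hc : Nat.card A' ≤ N := by
      have h3 : Nat.card A' < Nat.card A :=
        Finite.card_subtype_lt (x := a₀) (not_not.2 (hid a₀ z₀ hz₀ hv))
      omega
    obtain ⟨e', Q, hQ, hq⟩ := ih A' (fun a => O a) (fun a => K a) (fun a => h a) (fun a => u a) hc
      (fun a => h1 a) (fun a z hz => by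
        obtain ⟨b, hb1, hb2⟩ := h2 a z hz
        refine ⟨⟨b, fun hb => a.2 (hid a z hz ?_)⟩, hb1, hb2⟩
        filter_upwards [hb2] with y hy
        obtain ⟨w, hw, t, ht⟩ := hy
        rw [ht, hP.hom, hb w hw, mul_zero])
    refine ⟨e + e', _, hP.mul hQ, fun a z hz => ?_⟩
    by_cases ha : ∀ y ∈ O a, P (h a y, u a y) = 0
    · rw [ha z hz, zero_mul]
    · rw [hq ⟨a, ha⟩ z hz, mul_zero]

end Pool.Agent.Lib.CHW
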