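import Pool.Agent.Lib.CHW.Blue

/-! Project CHW, block FACT: local factorisation through a submersion. -/

open scoped Topology ENNReal
open Set MeasureTheory Metric Filter Module

noncomputable section

namespace Pool.Agent.Lib.CHW

namespace FACT

variable {V W F K : Type} [NormedAddCommGroup V] [NormedSpace ℂ V] [NormedAddCommGroup W]
  [NormedSpace ℂ W] [NormedAddCommGroup F] [NormedSpace ℂ F] [NormedAddCommGroup K]
  [NormedSpace ℂ K]

/-- A chart in which the submersion is the first projection. -/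
theorem chart [FiniteDimensional ℂ V] [FiniteDimensional ℂ W] {G : V → W} {z : V}
    (hG : ContDiffAt ℂ 1 G z) (hs : Function.Surjective (fderiv ℂ G z)) :
    ∃ (S : Submodule ℂ V) (P : V →L[ℂ] S) (ψ : W × S → V), ψ (G z, P z) = z ∧
      (∀ᶠ q in 𝓝 (G z, P z), DifferentiableAt ℂ ψ q ∧ G (ψ q) = q.1) ∧
      ∀ᶠ y in 𝓝 z, ψ (G y, P y) = y := by
  have : CompleteSpace V := FiniteDimensional.complete ℂ V
  have : CompleteSpace W := FiniteDimensional.complete ℂ W
  set L : V →L[ℂ] W := fderiv ℂ G z with hL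
  obtain ⟨P, hP⟩ := Submodule.ClosedComplemented.of_finiteDimensional (𝕜 := ℂ) L.ker
  have h1 : L.range = ⊤ := LinearMap.range_eq_top.2 hs
  have h2 : P.range = ⊤ := LinearMap.range_eq_of_proj (f := (P : V →ₗ[ℂ] L.ker)) hP
  have h3 : IsCompl L.ker P.ker := LinearMap.isCompl_of_proj (f := (P : V →ₗ[ℂ] L.ker)) hP
  set e : V ≃L[ℂ] W × L.ker := ContinuousLinearMap.equivProdOfSurjectiveOfIsCompl L P h1 h2 h3
  have hΦ : ContDiffAt ℂ 1 (fun x => (G x, P x)) z := hG.prodMk P.contDiff.contDiffAt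
  have hΦ' : HasFDerivAt (fun x => (G x, P x)) (e : V →L[ℂ] W × L.ker) z :=
    (hG.differentiableAt one_ne_zero).hasFDerivAt.prodMk P.hasFDerivAt
  refine ⟨L.ker, P, hΦ.localInverse hΦ' one_ne_zero, hΦ.localInverse_apply_image hΦ' one_ne_zero,
    ?_, (hΦ.hasStrictFDerivAt' hΦ' one_ne_zero).eventually_left_inverse⟩
  have h4 := (hΦ.to_localInverse hΦ' one_ne_zero).eventually (by simp)
  filter_upwards [h4, (hΦ.hasStrictFDerivAt' hΦ' one_ne_zero).eventually_right_inverse]
    with q hq hr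
  exact ⟨hq.differentiableAt one_ne_zero, congrArg Prod.fst hr⟩

/-- A function whose derivative kills the second factor depends only on the first variable. -/
theorem indep {H : W × K → F} {b : W} {k : K}
    (h : ∀ᶠ q in 𝓝 (b, k), DifferentiableAt ℂ H q ∧ ∀ v, fderiv ℂ H q (0, v) = 0) :
    ∀ᶠ q in 𝓝 (b, k), H q = H (q.1, k) := by
  obtain ⟨ε, hε, hb⟩ := Metric.eventually_nhds_iff_ball.1 h
  filter_upwards [ball_mem_nhds (b, k) hε] with q hq
  rw [← ball_prod_same] at hq
  have hm : ∀ x ∈ ball k ε, (q.1, x) ∈ ball (b, k) ε := fun x hx => by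
    rw [← ball_prod_same]
    exact ⟨hq.1, hx⟩
  have hd : ∀ x ∈ ball k ε, HasFDerivAt (fun x => H (q.1, x))
      ((fderiv ℂ H (q.1, x)).comp (ContinuousLinearMap.inr ℂ W K)) x := fun x hx =>
    (hb _ (hm x hx)).1.hasFDerivAt.comp x (hasFDerivAt_prodMk_right q.1 x)
  refine isOpen_ball.is_const_of_fderiv_eq_zero (𝕜 := ℂ) (f := fun x => H (q.1, x))
    (convex_ball k ε).isPreconnected
    (fun x hx => (hd x hx).differentiableAt.differentiableWithinAt) (fun x hx => ?_) hq.2
    (mem_ball_self hε)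
  rw [(hd x hx).fderiv]
  ext v
  simpa using (hb _ (hm x hx)).2 v

end FACT

theorem bFACT : St_FACT := by
  intro V W F _ _ _ _ _ _ _ _ _ G g z h hs
  have : CompleteSpace V := FiniteDimensional.complete ℂ V
  have : CompleteSpace W := FiniteDimensional.complete ℂ W
  have hG : ContDiffAt ℂ 1 G z := by
    simpa using SV.H85.contDiffAt_nat (h.mono fun y hy => hy.1) 1
  refine ⟨(hG.hasStrictFDerivAt one_ne_zero).map_nhds_eq_of_surj (LinearMap.range_eq_top.2 hs), ?_⟩
  obtain ⟨S, P, ψ, h0, h1, h2⟩ := FACT.chart hG hs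
  have hc : Tendsto ψ (𝓝 (G z, P z)) (𝓝 z) := by
    have := h1.self_of_nhds.1.continuousAt.tendsto
    rwa [h0] at this
  have hH : ∀ᶠ q in 𝓝 (G z, P z), DifferentiableAt ℂ (fun q => g (ψ q)) q ∧
      ∀ v, fderiv ℂ (fun q => g (ψ q)) q (0, v) = 0 := by
    filter_upwards [hc.eventually h, h1.eventually_nhds] with q hq hr
    have hψ := hr.self_of_nhds.1.hasFDerivAt
    have e1 : HasFDerivAt (fun q => g (ψ q)) ((fderiv ℂ g (ψ q)).comp (fderiv ℂ ψ q)) q :=
      hq.2.1.hasFDerivAt.comp q hψ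
    have e2 : HasFDerivAt (fun q => G (ψ q)) ((fderiv ℂ G (ψ q)).comp (fderiv ℂ ψ q)) q :=
      hq.1.hasFDerivAt.comp q hψ
    have e3 : HasFDerivAt (fun q => G (ψ q)) (ContinuousLinearMap.fst ℂ W S) q :=
      hasFDerivAt_fst.congr_of_eventuallyEq (hr.mono fun x hx => hx.2)
    refine ⟨e1.differentiableAt, fun v => ?_⟩
    rw [e1.fderiv]
    apply hq.2.2
    simpa using congrArg (fun T : W × S →L[ℂ] W => T (0, v)) (e2.unique e3)
  refine ⟨fun b => g (ψ (b, P z)), ?_, ?_⟩
  · have ht : Tendsto (fun b : W => (b, P z)) (𝓝 (G z)) (𝓝 (G z, P z)) :=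
      (continuous_id.prodMk continuous_const).continuousAt.tendsto
    filter_upwards [ht.eventually hH] with b hb
    exact DifferentiableAt.comp (g := fun q => g (ψ q)) (f := fun b : W => (b, P z)) b hb.1
      (differentiableAt_id.prodMk (differentiableAt_const _))
  · have ht : Tendsto (fun y : V => (G y, P y)) (𝓝 z) (𝓝 (G z, P z)) :=
      (hG.continuousAt.prodMk P.continuous.continuousAt).tendsto
    filter_upwards [ht.eventually (FACT.indep hH), h2] with y hy hr
    simpa [hr] using hy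

end Pool.Agent.Lib.CHW
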