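import Pool.Agent.Lib.CHW.Blue

/-! The image of the set of points of rank at most `r` has dimension at most `2 r`. -/

open scoped Topology ENNReal
open Set MeasureTheory Metric Filter Module

noncomputable section

namespace Pool.Agent.Lib.CHW

namespace SARD

theorem loc {V F : Type} [TopologicalSpace V] [SecondCountableTopology V] [EMetricSpace F]
    (A : Set V) (g : V → F) (c : ℝ≥0∞)
    (h : ∀ x ∈ A, ∃ t ∈ 𝓝 x, dimH (g '' (A ∩ t)) ≤ c) : dimH (g '' A) ≤ c := by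
  classical
  choose! t ht hd using h
  obtain ⟨s, hsA, hs, hc⟩ := TopologicalSpace.countable_cover_nhdsWithin (f := t) (s := A)
    (fun x hx => mem_nhdsWithin_of_mem_nhds (ht x hx))
  have hsub : g '' A ⊆ ⋃ x ∈ s, g '' (A ∩ t x) := by
    rintro _ ⟨y, hy, rfl⟩
    obtain ⟨x, hx, hyx⟩ := mem_iUnion₂.1 (hc hy)
    exact mem_iUnion₂.2 ⟨x, hx, ⟨y, ⟨hy, hyx⟩, rfl⟩⟩
  refine (dimH_mono hsub).trans ?_
  rw [dimH_bUnion hs]
  exact iSup₂_le fun x hx => hd x (hsA hx)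

theorem rk_comp_le {W V F : Type} [NormedAddCommGroup W] [NormedSpace ℂ W]
    [NormedAddCommGroup V] [NormedSpace ℂ V] [NormedAddCommGroup F] [NormedSpace ℂ F]
    [FiniteDimensional ℂ F] (g : V → F) (τ : W → V) (w : W) (hg : DifferentiableAt ℂ g (τ w))
    (hτ : DifferentiableAt ℂ τ w) : rk (fun x => g (τ x)) w ≤ rk g (τ w) := by
  unfold rk
  have h : fderiv ℂ (fun x => g (τ x)) w = (fderiv ℂ g (τ w)).comp (fderiv ℂ τ w) :=
    fderiv_comp w hg hτ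
  apply Submodule.finrank_mono
  rintro _ ⟨v, rfl⟩
  exact ⟨fderiv ℂ τ w v, by rw [h]; rfl⟩

theorem rk_le {V F : Type} [NormedAddCommGroup V] [NormedSpace ℂ V] [NormedAddCommGroup F]
    [NormedSpace ℂ F] [FiniteDimensional ℂ F] (g : V → F) (z : V) : rk g z ≤ finrank ℂ F :=
  Submodule.finrank_le _

theorem main (hH : St_HYP) (hP : St_PAR) (hM : St_MIN) (hC : St_CRK) (F : Type)
    [NormedAddCommGroup F] [NormedSpace ℂ F] [FiniteDimensional ℂ F] (r : ℕ) (n : ℕ) :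
    ∀ (V : Type) [NormedAddCommGroup V] [NormedSpace ℂ V] [FiniteDimensional ℂ V]
      (O : Set V) (g : V → F), finrank ℂ V = n → IsOpen O → DifferentiableOn ℂ g O →
      dimH (g '' {z ∈ O | rk g z ≤ r}) ≤ 2 * (r : ℝ≥0∞) := by
  induction n using Nat.strong_induction_on with
  | _ n ih =>
  intro V _ _ _ O g hn hO hg
  have : ProperSpace V := FiniteDimensional.proper ℂ V
  apply loc
  intro z hz
  obtain ⟨ε, hε, hB⟩ := Metric.isOpen_iff.1 hO z hz.1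
  refine ⟨ball z ε, ball_mem_nhds z hε, ?_⟩
  have hgB : DifferentiableOn ℂ g (ball z ε) := hg.mono hB
  have hbd : BddAbove (rk g '' ball z ε) := ⟨finrank ℂ F, by rintro _ ⟨y, -, rfl⟩; exact rk_le g y⟩
  obtain ⟨y₀, hy₀, hρ⟩ := Nat.sSup_mem (s := rk g '' ball z ε) ⟨_, z, mem_ball_self hε, rfl⟩ hbd
  have hmax : ∀ y ∈ ball z ε, rk g y ≤ rk g y₀ := fun y hy => by
    rw [hρ]; exact le_csSup hbd ⟨y, hy, rfl⟩
  have h1 : dimH (g '' {x ∈ ball z ε | rk g x ≤ r ∧ rk g x = rk g y₀}) ≤ 2 * (r : ℝ≥0∞) := by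
    apply loc
    intro x hx
    obtain ⟨t, ht, hd⟩ := hC V F g x (by
      filter_upwards [isOpen_ball.mem_nhds hx.1] with y hy
      exact ⟨hgB.differentiableAt (isOpen_ball.mem_nhds hy), by rw [hx.2.2]; exact hmax y hy⟩)
    refine ⟨t, ht, ((dimH_mono (image_mono inter_subset_right)).trans hd).trans ?_⟩
    have : ((rk g x : ℕ) : ℝ≥0∞) ≤ (r : ℝ≥0∞) := by exact_mod_cast hx.2.1
    gcongr
  have h2 : dimH (g '' {x ∈ ball z ε | rk g x ≤ r ∧ rk g x < rk g y₀}) ≤ 2 * (r : ℝ≥0∞) := by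
    rcases Nat.eq_zero_or_pos (rk g y₀) with h0 | h0
    · have : {x ∈ ball z ε | rk g x ≤ r ∧ rk g x < rk g y₀} = ∅ := by
        ext x
        simp only [h0, mem_ofPred_eq, mem_empty_iff_false, iff_false]
        intro hx
        exact absurd hx.2.2 (Nat.not_lt_zero _)
      rw [this, image_empty, dimH_empty]
      exact zero_le
    obtain ⟨μ, hμ, hμ0, hμz⟩ := hM V F (ball z ε) g y₀ (rk g y₀ - 1) isOpen_ball hgB hy₀
      (by omega)
    obtain ⟨ν, hν, hνz⟩ := hH V (ball z ε) μ isOpen_ball (convex_ball z ε).isPreconnected hμ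
      ⟨y₀, hy₀, hμ0⟩
    have hsub : g '' {x ∈ ball z ε | rk g x ≤ r ∧ rk g x < rk g y₀} ⊆
        ⋃ k, g '' {x ∈ ball z ε | rk g x ≤ r ∧ ν k x = 0 ∧ fderiv ℂ (ν k) x ≠ 0} := by
      rintro _ ⟨x, hx, rfl⟩
      obtain ⟨k, hk⟩ := hνz x hx.1 (hμz x hx.1 (by have := hx.2.2; omega))
      exact mem_iUnion.2 ⟨k, x, ⟨hx.1, hx.2.1, hk⟩, rfl⟩
    refine (dimH_mono hsub).trans ?_
    rw [dimH_iUnion]
    refine iSup_le fun k => ?_
    apply loc
    intro x hx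
    obtain ⟨W, U, τ, hW, hU, hτ, hτB, hev⟩ := hP V (ball z ε) (ν k) x isOpen_ball hx.1 (hν k)
      hx.2.2.1 hx.2.2.2
    refine ⟨_, hev, ?_⟩
    have hI := ih (finrank ℂ W) (by omega) W U (fun w => g (τ w)) rfl hU (hgB.comp hτ hτB)
    refine le_trans (dimH_mono ?_) hI
    rintro _ ⟨y, ⟨hy, hyt⟩, rfl⟩
    obtain ⟨w, hw, rfl⟩ := hyt hy.2.2.1
    refine ⟨w, ⟨hw, le_trans (rk_comp_le g τ w ?_ ?_) hy.2.1⟩, rfl⟩
    · exact hgB.differentiableAt (isOpen_ball.mem_nhds hy.1)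
    · exact hτ.differentiableAt (hU.mem_nhds hw)
  have hsub : g '' ({z ∈ O | rk g z ≤ r} ∩ ball z ε) ⊆
      g '' {x ∈ ball z ε | rk g x ≤ r ∧ rk g x = rk g y₀} ∪
        g '' {x ∈ ball z ε | rk g x ≤ r ∧ rk g x < rk g y₀} := by
    rintro _ ⟨x, hx, rfl⟩
    rcases (hmax x hx.2).eq_or_lt with h | h
    · exact Or.inl ⟨x, ⟨hx.2, hx.1.2, h⟩, rfl⟩
    · exact Or.inr ⟨x, ⟨hx.2, hx.1.2, h⟩, rfl⟩
  refine (dimH_mono hsub).trans ?_
  rw [dimH_union]
  exact max_le h1 h2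

end SARD

theorem bSARD (hH : St_HYP) (hP : St_PAR) (hM : St_MIN) (hC : St_CRK) : St_SARD := by
  intro V F _ _ _ _ _ _ O g r hO hg
  exact SARD.main hH hP hM hC F r _ V O g rfl hO hg

end Pool.Agent.Lib.CHW
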