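import Pool.Agent.Lib.SV.Hol85

/-! Project CHW: a section is integral over a system of sections without common zero. Statements. -/

open scoped Topology ENNReal
open Set MeasureTheory Metric Filter Module

set_option linter.unusedVariables false

noncomputable section

namespace Pool.Agent.Lib.CHW

section defs

variable {V F : Type} [NormedAddCommGroup V] [NormedSpace ℂ V] [NormedAddCommGroup F]
  [NormedSpace ℂ F] {A : Type}

/-- The rank of the derivative. -/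
def rk (g : V → F) (z : V) : ℕ := finrank ℂ (LinearMap.range (fderiv ℂ g z : V →ₗ[ℂ] F))

/-- The map to the cone. -/
def cm (g : V → F) (p : ℂ × V) : F := p.1 • g p.2

/-- The cone over the images of the sets `K a`. -/
def Cone (K : A → Set V) (g : A → V → F) : Set F := {b | ∃ a, ∃ z ∈ K a, ∃ t : ℂ, b = t • g a z}

/-- Holomorphic maps on open sets whose values lie in the cone over compact subsets. -/
structure Dat (O K : A → Set V) (g : A → V → F) : Prop where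
  opn : ∀ a, IsOpen (O a)
  cpt : ∀ a, IsCompact (K a)
  sub : ∀ a, K a ⊆ O a
  hol : ∀ a, DifferentiableOn ℂ (g a) (O a)
  cov : ∀ a, ∀ z ∈ O a, g a z ∈ Cone K g

/-- The values of `h` on the fibre of `u` over `b`. -/
def Lam (K : A → Set V) (h : A → V → ℂ) (u : A → V → F) (b : F) : Set ℂ :=
  {x | (x, b) ∈ Cone K fun a z => (h a z, u a z)}

/-- An entire homogeneous function of degree `e` that is monic in the first variable. -/
structure Mon (e : ℕ) (P : ℂ × F → ℂ) : Prop where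
  hol : Differentiable ℂ P
  hom : ∀ (t : ℂ) (p : ℂ × F), P (t • p) = t ^ e * P p
  one : P (1, 0) = 1

end defs

/-- Local factorisation through a submersion. -/
def St_FACT : Prop := ∀ (V W F : Type) [NormedAddCommGroup V] [NormedSpace ℂ V]
  [FiniteDimensional ℂ V] [NormedAddCommGroup W] [NormedSpace ℂ W] [FiniteDimensional ℂ W]
  [NormedAddCommGroup F] [NormedSpace ℂ F] [FiniteDimensional ℂ F] (G : V → W) (g : V → F) (z : V),
  (∀ᶠ y in 𝓝 z, DifferentiableAt ℂ G y ∧ DifferentiableAt ℂ g y ∧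
    ∀ v, fderiv ℂ G y v = 0 → fderiv ℂ g y v = 0) → Function.Surjective (fderiv ℂ G z) →
  map G (𝓝 z) = 𝓝 (G z) ∧ ∃ lam : W → F, (∀ᶠ b in 𝓝 (G z), DifferentiableAt ℂ lam b) ∧
    ∀ᶠ y in 𝓝 z, g y = lam (G y)

/-- The zero set of a holomorphic function lies in countably many smooth hypersurfaces. -/
def St_HYP : Prop := ∀ (V : Type) [NormedAddCommGroup V] [NormedSpace ℂ V] [FiniteDimensional ℂ V]
  (O : Set V) (μ : V → ℂ), IsOpen O → IsPreconnected O → DifferentiableOn ℂ μ O →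
  (∃ y ∈ O, μ y ≠ 0) → ∃ ν : ℕ → V → ℂ, (∀ k, DifferentiableOn ℂ (ν k) O) ∧
    ∀ y ∈ O, μ y = 0 → ∃ k, ν k y = 0 ∧ fderiv ℂ (ν k) y ≠ 0

/-- Local parametrisation of a smooth hypersurface. -/
def St_PAR : Prop := ∀ (V : Type) [NormedAddCommGroup V] [NormedSpace ℂ V] [FiniteDimensional ℂ V]
  (O : Set V) (ν : V → ℂ) (y : V), IsOpen O → y ∈ O → DifferentiableOn ℂ ν O → ν y = 0 →
  fderiv ℂ ν y ≠ 0 → ∃ (W : Submodule ℂ V) (U : Set W) (τ : W → V),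
    finrank ℂ W + 1 = finrank ℂ V ∧ IsOpen U ∧ DifferentiableOn ℂ τ U ∧ MapsTo τ U O ∧
    ∀ᶠ x in 𝓝 y, ν x = 0 → x ∈ τ '' U

/-- The zero set of a holomorphic function is small. -/
def St_ZER : Prop := ∀ (V : Type) [NormedAddCommGroup V] [NormedSpace ℂ V] [FiniteDimensional ℂ V]
  [Nontrivial V] (O : Set V) (μ : V → ℂ), IsOpen O → IsPreconnected O → DifferentiableOn ℂ μ O →
  (∃ y ∈ O, μ y ≠ 0) → dimH {y ∈ O | μ y = 0} + 2 ≤ 2 * (finrank ℂ V : ℝ≥0∞)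

/-- A minor of the derivative. -/
def St_MIN : Prop := ∀ (V F : Type) [NormedAddCommGroup V] [NormedSpace ℂ V]
  [FiniteDimensional ℂ V] [NormedAddCommGroup F] [NormedSpace ℂ F] [FiniteDimensional ℂ F]
  (O : Set V) (g : V → F) (y : V) (r : ℕ), IsOpen O → DifferentiableOn ℂ g O → y ∈ O →
  r < rk g y → ∃ μ : V → ℂ, DifferentiableOn ℂ μ O ∧ μ y ≠ 0 ∧ ∀ x ∈ O, rk g x ≤ r → μ x = 0

/-- The image near a point of locally maximal rank. -/
def St_CRK : Prop := ∀ (V F : Type) [NormedAddCommGroup V] [NormedSpace ℂ V]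
  [FiniteDimensional ℂ V] [NormedAddCommGroup F] [NormedSpace ℂ F] [FiniteDimensional ℂ F]
  (g : V → F) (z : V), (∀ᶠ y in 𝓝 z, DifferentiableAt ℂ g y ∧ rk g y ≤ rk g z) →
  ∃ t ∈ 𝓝 z, dimH (g '' t) ≤ 2 * (rk g z : ℝ≥0∞)

/-- The image of the set of points of rank at most `r`. -/
def St_SARD : Prop := ∀ (V F : Type) [NormedAddCommGroup V] [NormedSpace ℂ V]
  [FiniteDimensional ℂ V] [NormedAddCommGroup F] [NormedSpace ℂ F] [FiniteDimensional ℂ F]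
  (O : Set V) (g : V → F) (r : ℕ), IsOpen O → DifferentiableOn ℂ g O →
  dimH (g '' {z ∈ O | rk g z ≤ r}) ≤ 2 * (r : ℝ≥0∞)

/-- Cut-off functions for a small compact set. -/
def St_CUT : Prop := ∀ (k : ℕ) (K : Set (Fin k → ℂ)) (ε : ℝ), IsCompact K →
  dimH K + 1 < 2 * (k : ℝ≥0∞) → 0 < ε → ∃ θ : (Fin k → ℂ) → ℝ, ContDiff ℝ 2 θ ∧
    (∀ x, 0 ≤ θ x ∧ θ x ≤ 1) ∧ (∀ᶠ x in 𝓝ˢ K, θ x = 0) ∧
    volume {x | θ x ≠ 1} ≤ ENNReal.ofReal ε ∧ ∫⁻ x, ‖fderiv ℝ θ x‖ₑ ≤ ENNReal.ofReal ε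

/-- Small closed sets are removable for locally bounded holomorphic functions. -/
def St_REM : Prop := ∀ (F : Type) [NormedAddCommGroup F] [NormedSpace ℂ F] [FiniteDimensional ℂ F]
  (S : Set F) (f : F → ℂ), IsClosed S → dimH S + 1 < 2 * (finrank ℂ F : ℝ≥0∞) →
  DifferentiableOn ℂ f Sᶜ → (∀ R : ℝ, ∃ M : ℝ, ∀ x ∉ S, ‖x‖ ≤ R → ‖f x‖ ≤ M) →
  ∃ g : F → ℂ, Differentiable ℂ g ∧ EqOn g f Sᶜ

/-- Small closed sets do not separate. -/
def St_CON : Prop := ∀ (F : Type) [NormedAddCommGroup F] [NormedSpace ℂ F] [FiniteDimensional ℂ F]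
  (S : Set F), IsClosed S → dimH S + 1 < 2 * (finrank ℂ F : ℝ≥0∞) → IsPreconnected Sᶜ ∧ Dense Sᶜ

/-- The critical values of the map to the cone. -/
def St_CRIT : Prop := ∀ (V F : Type) [NormedAddCommGroup V] [NormedSpace ℂ V]
  [FiniteDimensional ℂ V] [NormedAddCommGroup F] [NormedSpace ℂ F] [FiniteDimensional ℂ F]
  [Nontrivial F] (A : Type) [Finite A] (O K : A → Set V) (g : A → V → F), Dat O K g →
  (∀ a, ∀ z ∈ O a, g a z ≠ 0) → IsClosed (Cone K g) ∧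
    ∃ S : Set F, IsClosed S ∧ dimH S + 2 ≤ 2 * (finrank ℂ F : ℝ≥0∞) ∧ 0 ∈ S ∧
      ∀ a, ∀ z ∈ K a, ∀ t : ℂ, t • g a z ∉ S → Function.Surjective (fderiv ℂ (cm (g a)) (t, z))

/-- If the cone is not everything, the map to the cone is nowhere a submersion. -/
def St_ONTO : Prop := ∀ (V F : Type) [NormedAddCommGroup V] [NormedSpace ℂ V]
  [FiniteDimensional ℂ V] [NormedAddCommGroup F] [NormedSpace ℂ F] [FiniteDimensional ℂ F]
  (A : Type) [Finite A] (O K : A → Set V) (g : A → V → F), Dat O K g →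
  (∀ a, ∀ z ∈ O a, g a z ≠ 0) → Cone K g ≠ univ →
  ∀ a, ∀ z ∈ O a, ∀ t : ℂ, ¬ Function.Surjective (fderiv ℂ (cm (g a)) (t, z))

/-- Near a regular value the values of `h` form finitely many holomorphic branches. -/
def St_LOC : Prop := ∀ (V F : Type) [NormedAddCommGroup V] [NormedSpace ℂ V]
  [FiniteDimensional ℂ V] [NormedAddCommGroup F] [NormedSpace ℂ F] [FiniteDimensional ℂ F]
  (A : Type) [Finite A] (O K : A → Set V) (h : A → V → ℂ) (u : A → V → F) (b : F),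
  Dat O K (fun a z => (h a z, u a z)) → (∀ a, ∀ z ∈ O a, u a z ≠ 0) →
  (∀ a, ∀ z ∈ K a, ∀ t : ℂ, t • u a z = b → Function.Surjective (fderiv ℂ (cm (u a)) (t, z))) →
  ∃ ε > 0, ∃ (m : ℕ) (lam : Fin m → F → ℂ), (∀ i, DifferentiableOn ℂ (lam i) (ball b ε)) ∧
    ∀ c ∈ ball b ε, Lam K h u c = range fun i => lam i c

/-- A multivalued function with finitely many branches off a small set. -/
def St_SYM : Prop := ∀ (F : Type) [NormedAddCommGroup F] [NormedSpace ℂ F] [FiniteDimensional ℂ F]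
  (L : F → Set ℂ) (S : Set F) (C : ℝ), dimH S + 2 ≤ 2 * (finrank ℂ F : ℝ≥0∞) →
  (∀ b ∉ S, ∃ ε > 0, ∃ (m : ℕ) (lam : Fin m → F → ℂ),
    (∀ i, DifferentiableOn ℂ (lam i) (ball b ε)) ∧ ∀ c ∈ ball b ε, L c = range fun i => lam i c) →
  (∀ b, ∀ x ∈ L b, ‖x‖ ≤ C * ‖b‖) → (∀ (t : ℂ) b, ∀ x ∈ L b, t * x ∈ L (t • b)) →
  ∃ e P, Mon e P ∧ ∃ G : Set F, IsOpen G ∧ Dense G ∧ ∀ b ∈ G, ∀ x ∈ L b, P (x, b) = 0

/-- A monic relation on one chart. -/
def St_ONE : Prop := ∀ (V F : Type) [NormedAddCommGroup V] [NormedSpace ℂ V]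
  [FiniteDimensional ℂ V] [NormedAddCommGroup F] [NormedSpace ℂ F] [FiniteDimensional ℂ F]
  (A : Type) [Finite A] (O K : A → Set V) (h : A → V → ℂ) (u : A → V → F),
  Dat O K (fun a z => (h a z, u a z)) → (∀ a, ∀ z ∈ O a, u a z ≠ 0) → (∃ a, (O a).Nonempty) →
  ∃ e P, Mon e P ∧ ∃ a, ∃ z ∈ O a, ∀ᶠ y in 𝓝 z, P (h a y, u a y) = 0

/-- A monic relation on all charts. -/
def St_CHA : Prop := ∀ (V F : Type) [NormedAddCommGroup V] [NormedSpace ℂ V]
  [FiniteDimensional ℂ V] [NormedAddCommGroup F] [NormedSpace ℂ F] [FiniteDimensional ℂ F]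
  (A : Type) [Finite A] (O K : A → Set V) (h : A → V → ℂ) (u : A → V → F),
  (∀ a, IsOpen (O a) ∧ IsPreconnected (O a) ∧ IsCompact (K a) ∧ K a ⊆ O a ∧
    DifferentiableOn ℂ (h a) (O a) ∧ DifferentiableOn ℂ (u a) (O a) ∧ ∀ z ∈ O a, u a z ≠ 0) →
  (∀ a, ∀ z ∈ O a, ∃ b, (∃ w ∈ K b, ∃ t : ℂ, (h a z, u a z) = t • (h b w, u b w)) ∧
    ∀ᶠ y in 𝓝 z, ∃ w ∈ O b, ∃ t : ℂ, (h a y, u a y) = t • (h b w, u b w)) →
  ∃ e P, Mon e P ∧ ∀ a, ∀ z ∈ O a, P (h a z, u a z) = 0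

end Pool.Agent.Lib.CHW
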